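import Mathlib
import Pool.Agent.H1.EllDens

/-!
MP_050d88_nt, typical functions: the two-point correlations of a function close to `n ^ (i t)`.
-/

set_option autoImplicit false

namespace Pool.Agent.H1.TF

open Complex Filter Topology Pool.Agent.H1.Ell

private theorem log_diff (n h₁ h₂ H : ℕ) (hn : 1 ≤ n) (h1 : h₁ ≤ H) :
    Real.log ((n + h₁ : ℕ) : ℝ) - Real.log ((n + h₂ : ℕ) : ℝ) ≤ (H : ℝ) * (1 / n) := by
  have hnR : (1 : ℝ) ≤ n := by exact_mod_cast hn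
  have hh1 : (h₁ : ℝ) ≤ H := by exact_mod_cast h1
  have hH1 : (0 : ℝ) ≤ h₁ := Nat.cast_nonneg _
  have hH2 : (0 : ℝ) ≤ h₂ := Nat.cast_nonneg _
  push_cast
  rw [← Real.log_div (by positivity) (by positivity)]
  refine (Real.log_le_sub_one_of_pos (by positivity)).trans ?_
  have e : ((n : ℝ) + h₁) / (n + h₂) - 1 = (h₁ - h₂) / (n + h₂) := by
    field_simp
    ring
  rw [e, mul_one_div, div_le_div_iff₀ (by positivity) (by positivity)]
  nlinarith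

private theorem pair_near (t : ℝ) (ht : 0 ≤ t) (n h₁ h₂ H : ℕ) (hn : 1 ≤ n) (h1 : h₁ ≤ H) (h2 : h₂ ≤ H) :
    ‖((n + h₁ : ℕ) : ℂ) ^ ((t : ℂ) * I) * (starRingEnd ℂ) (((n + h₂ : ℕ) : ℂ) ^ ((t : ℂ) * I)) - 1‖
      ≤ t * H * (1 / n) := by
  have hC : ∀ h : ℕ, ((n + h : ℕ) : ℂ) ≠ 0 := fun h => by
    have : n + h ≠ 0 := by omega
    exact_mod_cast this
  set a : ℝ := Real.log ((n + h₁ : ℕ) : ℝ) with ha
  set b : ℝ := Real.log ((n + h₂ : ℕ) : ℝ) with hb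
  have e : ((n + h₁ : ℕ) : ℂ) ^ ((t : ℂ) * I) * (starRingEnd ℂ) (((n + h₂ : ℕ) : ℂ) ^ ((t : ℂ) * I))
      = Complex.exp (I * ((t * (a - b) : ℝ) : ℂ)) := by
    rw [Complex.cpow_def_of_ne_zero (hC _), Complex.cpow_def_of_ne_zero (hC _), ← Complex.exp_conj,
      map_mul, map_mul, Complex.conj_I, Complex.conj_ofReal, ← Complex.natCast_log,
      ← Complex.natCast_log, Complex.conj_ofReal, ← Complex.exp_add]
    congr 1
    rw [ha, hb]
    push_cast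
    ring
  rw [e]
  refine Real.norm_exp_I_mul_ofReal_sub_one_le.trans ?_
  rw [Real.norm_eq_abs, abs_mul, abs_of_nonneg ht, mul_assoc]
  apply mul_le_mul_of_nonneg_left _ ht
  rw [abs_le]
  have h3 := log_diff n h₁ h₂ H hn h1
  have h4 := log_diff n h₂ h₁ H hn h2
  constructor <;> linarith

private theorem shift_sum (g : ℕ → ℂ) (hg : ∀ p, p.Prime → ‖g p‖ = 1) (t δ : ℝ)
    (hδ : ∀ Z : ℕ, ∑ p ∈ (Z + 1).primesBelow, ‖g p - (p : ℂ) ^ ((t : ℂ) * I)‖ ≤ δ) (H x h : ℕ) (hh : h ≤ H) :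
    ∑ n ∈ Finset.Icc 1 x, ‖mk g (n + h) - ((n + h : ℕ) : ℂ) ^ ((t : ℂ) * I)‖ ≤ ((x : ℝ) + H) * δ := by
  have h1 := sum_mk_approx g hg t (x + H)
  have h2 : ((x + H : ℕ) : ℝ) * ∑ p ∈ (x + H + 1).primesBelow, ‖g p - (p : ℂ) ^ ((t : ℂ) * I)‖
      ≤ ((x : ℝ) + H) * δ := by
    push_cast
    exact mul_le_mul_of_nonneg_left (hδ _) (by positivity)
  refine le_trans ?_ (h1.trans h2)
  have e : ∑ n ∈ Finset.Icc 1 x, ‖mk g (n + h) - ((n + h : ℕ) : ℂ) ^ ((t : ℂ) * I)‖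
      = ∑ n ∈ (Finset.Icc 1 x).map (addRightEmbedding h), ‖mk g n - (n : ℂ) ^ ((t : ℂ) * I)‖ := by
    rw [Finset.sum_map]; rfl
  rw [e]
  apply Finset.sum_le_sum_of_subset_of_nonneg
  · intro n hn
    rw [Finset.mem_map] at hn
    obtain ⟨m, hm, rfl⟩ := hn
    rw [Finset.mem_Icc] at hm ⊢
    simp only [addRightEmbedding_apply]
    omega
  · intro n _ _; positivity

private theorem corr_sum (g : ℕ → ℂ) (hg : ∀ p, p.Prime → ‖g p‖ = 1) (t : ℝ) (ht : 0 ≤ t) (δ : ℝ)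
    (hδ : ∀ Z : ℕ, ∑ p ∈ (Z + 1).primesBelow, ‖g p - (p : ℂ) ^ ((t : ℂ) * I)‖ ≤ δ)
    (H x h₁ h₂ : ℕ) (h1 : h₁ ≤ H) (h2 : h₂ ≤ H) :
    ‖∑ n ∈ Finset.Icc 1 x, (mk g (n + h₁) * (starRingEnd ℂ) (mk g (n + h₂)) - 1)‖
      ≤ 2 * (((x : ℝ) + H) * δ) + t * H * (1 + Real.log x) := by
  refine (norm_sum_le _ _).trans ?_
  have h3 : ∀ n ∈ Finset.Icc 1 x, ‖mk g (n + h₁) * (starRingEnd ℂ) (mk g (n + h₂)) - 1‖
      ≤ ‖mk g (n + h₁) - ((n + h₁ : ℕ) : ℂ) ^ ((t : ℂ) * I)‖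
        + ‖mk g (n + h₂) - ((n + h₂ : ℕ) : ℂ) ^ ((t : ℂ) * I)‖ + t * H * (1 / n) := by
    intro n hn
    rw [Finset.mem_Icc] at hn
    have hn2 := pair_near t ht n h₁ h₂ H hn.1 h1 h2
    set a := ((n + h₁ : ℕ) : ℂ) ^ ((t : ℂ) * I) with ha
    set b := ((n + h₂ : ℕ) : ℂ) ^ ((t : ℂ) * I) with hb
    have ha1 : ‖a‖ = 1 := norm_cpow_I (n + h₁) (by omega) t
    have hfn : ‖mk g (n + h₂)‖ = 1 := norm_mk _ hg _
    have e : mk g (n + h₁) * (starRingEnd ℂ) (mk g (n + h₂)) - 1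
        = (mk g (n + h₁) - a) * (starRingEnd ℂ) (mk g (n + h₂))
          + a * (starRingEnd ℂ) (mk g (n + h₂) - b) + (a * (starRingEnd ℂ) b - 1) := by
      rw [map_sub]; ring
    rw [e]
    refine (norm_add_le _ _).trans (add_le_add ((norm_add_le _ _).trans ?_) hn2)
    rw [norm_mul, norm_mul, Complex.norm_conj, Complex.norm_conj, hfn, ha1, mul_one, one_mul]
  refine (Finset.sum_le_sum h3).trans ?_
  rw [Finset.sum_add_distrib, Finset.sum_add_distrib, ← Finset.mul_sum]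
  have h4 := shift_sum g hg t δ hδ H x h₁ h1
  have h5 := shift_sum g hg t δ hδ H x h₂ h2
  have h6 : t * H * ∑ n ∈ Finset.Icc 1 x, 1 / (n : ℝ) ≤ t * H * (1 + Real.log x) :=
    mul_le_mul_of_nonneg_left (sum_inv_le x) (by positivity)
  linarith

/-- if `g` is close to `p ^ (i t)` at the primes then the correlations of the completely multiplicative
function with itself are close to 1 for all large `x` -/
theorem corr_ge (g : ℕ → ℂ) (hg : ∀ p, p.Prime → ‖g p‖ = 1) (t : ℝ) (ht : 0 ≤ t) (ε : ℝ) (hε : 0 < ε)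
    (hδ : ∀ Z : ℕ, ∑ p ∈ (Z + 1).primesBelow, ‖g p - (p : ℂ) ^ ((t : ℂ) * I)‖ ≤ ε / 8) (H : ℕ) :
    ∃ x₀ : ℕ, ∀ x : ℕ, x₀ ≤ x → ∀ h₁ ≤ H, ∀ h₂ ≤ H,
      ‖(∑ n ∈ Finset.Icc 1 x, mk g (n + h₁) * (starRingEnd ℂ) (mk g (n + h₂))) / (x : ℂ) - 1‖ < ε := by
  have hlim : Tendsto (fun z : ℕ => t * H * ((1 + Real.log z) / z)) atTop (𝓝 0) := by
    have h1 : Tendsto (fun z : ℝ => Real.log z / z) atTop (𝓝 0) :=
      Real.isLittleO_log_id_atTop.tendsto_div_nhds_zero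
    have h2 := h1.comp tendsto_natCast_atTop_atTop
    have h3 : Tendsto (fun z : ℕ => 1 / (z : ℝ)) atTop (𝓝 0) :=
      tendsto_const_nhds.div_atTop tendsto_natCast_atTop_atTop
    have h4 := (h3.add h2).const_mul (t * H)
    simp only [add_zero, mul_zero] at h4
    refine h4.congr (fun z => ?_)
    simp only [Function.comp]
    ring
  have hev := hlim.eventually (gt_mem_nhds (show (0 : ℝ) < ε / 4 by positivity))
  obtain ⟨N, hN⟩ := hev.exists_forall_of_atTop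
  refine ⟨max N (H + 1), fun x hx h₁ h1 h₂ h2 => ?_⟩
  have hxN : N ≤ x := (le_max_left _ _).trans hx
  have hxH : H + 1 ≤ x := (le_max_right _ _).trans hx
  have hx0 : (0 : ℝ) < x := by exact_mod_cast (by omega : 0 < x)
  have hxHR : (H : ℝ) ≤ x := by exact_mod_cast (by omega : H ≤ x)
  have hxC : (x : ℂ) ≠ 0 := by exact_mod_cast hx0.ne'
  have h3 := corr_sum g hg t ht (ε / 8) hδ H x h₁ h₂ h1 h2
  have h4 := hN x hxN
  have e : (∑ n ∈ Finset.Icc 1 x, mk g (n + h₁) * (starRingEnd ℂ) (mk g (n + h₂))) / (x : ℂ) - 1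
      = (∑ n ∈ Finset.Icc 1 x, (mk g (n + h₁) * (starRingEnd ℂ) (mk g (n + h₂)) - 1)) / (x : ℂ) := by
    rw [Finset.sum_sub_distrib, Finset.sum_const, Nat.card_Icc]
    simp only [add_tsub_cancel_right, nsmul_eq_mul, mul_one]
    rw [sub_div, div_self hxC]
  rw [e, norm_div, Complex.norm_natCast, div_lt_iff₀ hx0]
  refine lt_of_le_of_lt h3 ?_
  have h5 : t * H * (1 + Real.log x) ≤ ε / 4 * x := by
    have h6 : t * H * (1 + Real.log x) = t * H * ((1 + Real.log x) / x) * x := by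
      field_simp
    rw [h6]
    exact mul_le_mul_of_nonneg_right h4.le hx0.le
  nlinarith

end Pool.Agent.H1.TF
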