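import Mathlib
import Pool.Agent.H24.RL.Kron
import Pool.Agent.H1.EllFun

/-!
MP_050d88_nt, typical functions: Kronecker's theorem for the logarithms of the primes.
-/

set_option autoImplicit false

namespace Pool.Agent.H1.TF

open Complex

/-- the logarithms of distinct primes are linearly independent -/
private theorem log_indep {r : ℕ} (q : Fin r → ℕ) (hq : ∀ i, (q i).Prime) (hinj : Function.Injective q)
    (z : Fin r → ℤ) (hz : ∑ i, (z i : ℝ) * Real.log (q i) = 0) : z = 0 := by
  have hpos : ∀ i, (0 : ℝ) < q i := fun i => by exact_mod_cast (hq i).pos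
  have h1 : ∑ i, ((z i).toNat : ℝ) * Real.log (q i) = ∑ i, ((-z i).toNat : ℝ) * Real.log (q i) := by
    have h2 : ∀ i, (z i : ℝ) * Real.log (q i)
        = ((z i).toNat : ℝ) * Real.log (q i) - ((-z i).toNat : ℝ) * Real.log (q i) := by
      intro i
      have h3 : (z i : ℝ) = ((z i).toNat : ℝ) - ((-z i).toNat : ℝ) := by
        have h4 : z i = ((z i).toNat : ℤ) - ((-z i).toNat : ℤ) := by omega
        exact_mod_cast h4
      rw [← sub_mul, ← h3]
    rw [Finset.sum_congr rfl fun i _ => h2 i, Finset.sum_sub_distrib] at hz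
    linarith
  have hlog : ∀ a : Fin r → ℕ, ∑ i, (a i : ℝ) * Real.log (q i) = Real.log (∏ i, (q i : ℝ) ^ a i) := by
    intro a
    rw [Real.log_prod (fun i _ => (pow_pos (hpos i) _).ne')]
    exact Finset.sum_congr rfl fun i _ => (Real.log_pow _ _).symm
  rw [hlog, hlog] at h1
  have hp1 : ∀ a : Fin r → ℕ, (0 : ℝ) < ∏ i, (q i : ℝ) ^ a i :=
    fun a => Finset.prod_pos fun i _ => pow_pos (hpos i) _
  have h5 := Real.log_injOn_pos (Set.mem_Ioi.2 (hp1 _)) (Set.mem_Ioi.2 (hp1 _)) h1
  have h6 : ∏ i, (q i) ^ (z i).toNat = ∏ i, (q i) ^ (-z i).toNat := by exact_mod_cast h5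
  have hfac : ∀ (a : Fin r → ℕ) (j : Fin r), (∏ i, (q i) ^ a i).factorization (q j) = a j := by
    intro a j
    rw [Nat.factorization_prod (fun i _ => (pow_pos (hq i).pos _).ne'), Finset.sum_apply',
      Finset.sum_eq_single j]
    · rw [Nat.factorization_pow, Finsupp.smul_apply, (hq j).factorization_self, smul_eq_mul, mul_one]
    · intro i _ hij
      rw [Nat.factorization_pow, Finsupp.smul_apply, (hq i).factorization,
        Finsupp.single_eq_of_ne (fun h => hij (hinj h.symm)), smul_zero]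
    · intro h
      exact absurd (Finset.mem_univ _) h
  funext j
  have h7 := hfac (fun i => (z i).toNat) j
  have h8 := hfac (fun i => (-z i).toNat) j
  rw [h6] at h7
  rw [h7] at h8
  show z j = 0
  omega

/-- Kronecker's theorem for the primes below `P` -/
theorem kron_primes (g : ℕ → ℂ) (hg : ∀ p, p.Prime → ‖g p‖ = 1) (P : ℕ) (ε : ℝ) (hε : 0 < ε) (M : ℝ) :
    ∃ t : ℝ, M ≤ t ∧ ∀ p < P, p.Prime → ‖g p - (p : ℂ) ^ ((t : ℂ) * I)‖ ≤ ε := by
  classical
  set s := P.primesBelow with hs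
  set e := s.equivFin with he
  have hpr : ∀ i : Fin s.card, ((e.symm i : s) : ℕ).Prime := fun i => Nat.prime_of_mem_primesBelow (e.symm i).2
  have hπ := Real.pi_pos
  have hlin : ∀ z : Fin s.card → ℤ,
      ∑ i, (z i : ℝ) * (Real.log ((e.symm i : s) : ℕ) / (2 * Real.pi)) = 0 → z = 0 := by
    intro z hz
    apply log_indep (fun i => ((e.symm i : s) : ℕ)) hpr
    · intro a b hab
      exact e.symm.injective (Subtype.ext hab)
    · have h1 : ∑ i, (z i : ℝ) * (Real.log ((e.symm i : s) : ℕ) / (2 * Real.pi))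
          = (∑ i, (z i : ℝ) * Real.log ((e.symm i : s) : ℕ)) / (2 * Real.pi) := by
        rw [Finset.sum_div]
        exact Finset.sum_congr rfl fun i _ => by ring
      rw [h1, div_eq_zero_iff] at hz
      rcases hz with hz | hz
      · exact hz
      · exfalso; linarith
  obtain ⟨y, n, hy, hn⟩ := Pool.Agent.H24.RL.kron hlin
    (fun i => -(Complex.arg (g ((e.symm i : s) : ℕ)) / (2 * Real.pi)))
    (show 0 < ε / (2 * Real.pi) by positivity) M
  refine ⟨y, hy, fun p hp hpp => ?_⟩
  have hmem : p ∈ s := Nat.mem_primesBelow.2 ⟨hp, hpp⟩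
  have h1 := hn (e ⟨p, hmem⟩)
  simp only [Equiv.symm_apply_apply] at h1
  set i := e ⟨p, hmem⟩ with hi
  set θ := Complex.arg (g p) with hθ
  have h2 : |y * Real.log p - θ - 2 * Real.pi * n i| ≤ ε := by
    have h3 : y * Real.log p - θ - 2 * Real.pi * n i
        = -(2 * Real.pi) * ((n i : ℝ) - y * (Real.log p / (2 * Real.pi)) - -(θ / (2 * Real.pi))) := by
      field_simp
      ring
    rw [h3, abs_mul, abs_neg, abs_of_pos (by positivity : (0 : ℝ) < 2 * Real.pi)]
    calc 2 * Real.pi * |(n i : ℝ) - y * (Real.log p / (2 * Real.pi)) - -(θ / (2 * Real.pi))|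
        ≤ 2 * Real.pi * (ε / (2 * Real.pi)) := mul_le_mul_of_nonneg_left h1 (by positivity)
      _ = ε := by field_simp
  have hpC : (p : ℂ) ≠ 0 := by exact_mod_cast hpp.ne_zero
  have h3 : g p = Complex.exp (θ * I) := by
    have := Complex.norm_mul_exp_arg_mul_I (g p)
    rw [hg p hpp, Complex.ofReal_one, one_mul] at this
    exact this.symm
  have h4 : (p : ℂ) ^ ((y : ℂ) * I) = Complex.exp (((y * Real.log p - 2 * Real.pi * n i : ℝ) : ℂ) * I) := by
    rw [Complex.cpow_def_of_ne_zero hpC, ← Complex.natCast_log]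
    have h5 : ((y * Real.log p - 2 * Real.pi * n i : ℝ) : ℂ) * I
        = (Real.log p : ℂ) * ((y : ℂ) * I) - (n i : ℂ) * (2 * Real.pi * I) := by
      push_cast
      ring
    rw [h5, Complex.exp_sub, Complex.exp_int_mul_two_pi_mul_I, div_one]
  rw [h3, h4]
  set δ : ℝ := y * Real.log p - 2 * Real.pi * n i - θ with hδ
  have h6 : Complex.exp (((y * Real.log p - 2 * Real.pi * n i : ℝ) : ℂ) * I)
      = Complex.exp ((θ : ℂ) * I) * Complex.exp ((δ : ℂ) * I) := by
    rw [← Complex.exp_add]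
    congr 1
    rw [hδ]
    push_cast
    ring
  have h7 : Complex.exp ((θ : ℂ) * I) - Complex.exp ((θ : ℂ) * I) * Complex.exp ((δ : ℂ) * I)
      = -(Complex.exp ((θ : ℂ) * I) * (Complex.exp ((δ : ℂ) * I) - 1)) := by ring
  rw [h6, h7, norm_neg, norm_mul, Complex.norm_exp_ofReal_mul_I, one_mul]
  have h8 := Real.norm_exp_I_mul_ofReal_sub_one_le (x := δ)
  rw [mul_comm I] at h8
  refine h8.trans ?_
  rw [Real.norm_eq_abs, hδ]
  have h9 : y * Real.log p - 2 * Real.pi * n i - θ = y * Real.log p - θ - 2 * Real.pi * n i := by ring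
  rw [h9]
  exact h2

end Pool.Agent.H1.TF
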