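import Mathlib
import Pool.Agent.H1.TF.Kr
import Pool.Agent.H1.TF.Corr

/-!
MP_050d88_nt, typical functions: the space of completely multiplicative functions with values in the circle,
and bad windows of scales for typical functions.
-/

set_option autoImplicit false

namespace Pool.Agent.H1.TF

open Complex Filter Topology Pool.Agent.H1.Ell

/-- the values at the primes -/
noncomputable def gv (φ : Nat.Primes → Circle) (p : ℕ) : ℂ :=
  if hp : p.Prime then (φ ⟨p, hp⟩ : ℂ) else 1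

/-- the completely multiplicative function with the values `φ p` at the primes -/
noncomputable def fn (φ : Nat.Primes → Circle) (n : ℕ) : ℂ :=
  n.factorization.prod fun p k => gv φ p ^ k

theorem fn_eq (φ : Nat.Primes → Circle) : fn φ = mk (gv φ) := rfl

theorem norm_gv (φ : Nat.Primes → Circle) (p : ℕ) : ‖gv φ p‖ = 1 := by
  unfold gv
  split_ifs with hp
  · exact Circle.norm_coe _
  · exact norm_one

theorem gv_prime (φ : Nat.Primes → Circle) (p : ℕ) (hp : p.Prime) : gv φ p = φ ⟨p, hp⟩ := by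
  unfold gv
  rw [dif_pos hp]

theorem fn_prime (φ : Nat.Primes → Circle) (p : ℕ) (hp : p.Prime) : fn φ p = φ ⟨p, hp⟩ := by
  rw [fn_eq, mk_prime _ hp, gv_prime φ p hp]

theorem norm_fn (φ : Nat.Primes → Circle) (n : ℕ) : ‖fn φ n‖ = 1 := norm_mk _ (fun p _ => norm_gv φ p) n

theorem fn_mul (φ : Nat.Primes → Circle) (m n : ℕ) (hm : 0 < m) (hn : 0 < n) :
    fn φ (m * n) = fn φ m * fn φ n := mk_mul _ hm.ne' hn.ne'

theorem cont_gv (p : ℕ) : Continuous (fun φ : Nat.Primes → Circle => gv φ p) := by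
  by_cases hp : p.Prime
  · have : (fun φ : Nat.Primes → Circle => gv φ p) = fun φ => ((φ ⟨p, hp⟩ : Circle) : ℂ) := by
      funext φ
      exact gv_prime φ p hp
    rw [this]
    exact continuous_subtype_val.comp (continuous_apply _)
  · have : (fun φ : Nat.Primes → Circle => gv φ p) = fun _ => (1 : ℂ) := by
      funext φ
      unfold gv
      rw [dif_neg hp]
    rw [this]
    exact continuous_const

theorem cont_fn (n : ℕ) : Continuous (fun φ : Nat.Primes → Circle => fn φ n) := by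
  unfold fn Finsupp.prod
  exact continuous_finsetProd _ (fun p _ => (cont_gv p).pow _)

/-- composition with a map to the circle -/
def cmp {T : Type} (c : T → Circle) (ψ : Nat.Primes → T) : Nat.Primes → Circle := fun p => c (ψ p)

theorem cont_cmp {T : Type} [TopologicalSpace T] (c : T → Circle) (hc : Continuous c) : Continuous (cmp c) :=
  continuous_pi fun p => hc.comp (continuous_apply p)

theorem dense_of {T : Type} [TopologicalSpace T] (U : Set (Nat.Primes → T))
    (h : ∀ (ψ₀ : Nat.Primes → T) (P : ℕ), ∃ ψ ∈ U, ∀ p : Nat.Primes, (p : ℕ) < P → ψ p = ψ₀ p) :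
    Dense U := by
  rw [dense_iff_inter_open]
  rintro V hV ⟨ψ₀, hψ₀⟩
  rw [isOpen_pi_iff] at hV
  obtain ⟨I, u, hu, hsub⟩ := hV ψ₀ hψ₀
  obtain ⟨ψ, hψU, hψ⟩ := h ψ₀ (I.sup (fun p : Nat.Primes => (p : ℕ)) + 1)
  refine ⟨ψ, hsub ?_, hψU⟩
  intro p hp
  rw [hψ p (Nat.lt_succ_of_le (Finset.le_sup (f := fun p : Nat.Primes => (p : ℕ)) hp))]
  exact (hu p hp).2

/-- the two-point correlation of `f` with its conjugate -/
noncomputable def cr (f : ℕ → ℂ) (h₁ h₂ x : ℕ) : ℂ :=
  (∑ n ∈ Finset.Icc 1 x, f (n + h₁) * (starRingEnd ℂ) (f (n + h₂))) / (x : ℂ)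

theorem cont_cr (h₁ h₂ x : ℕ) : Continuous (fun φ : Nat.Primes → Circle => cr (fn φ) h₁ h₂ x) := by
  unfold cr
  apply Continuous.div_const
  exact continuous_finsetSum _ (fun n _ => (cont_fn _).mul (Complex.continuous_conj.comp (cont_fn _)))

/-- typical functions have long bad windows which begin in `X` -/
theorem res_c {T : Type} [TopologicalSpace T] (c : T → Circle) (hc : Continuous c) (hs : Function.Surjective c)
    (Φ : ℕ → ℕ) (X : Set ℕ) (hX : X.Infinite) (H : ℕ) (ε : ℝ) (hε : 0 < ε) :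
    ∀ᶠ ψ in residual (Nat.Primes → T), ∃ y ∈ X, H ≤ y ∧ ∀ x, y ≤ x → x ≤ Φ y →
      ∀ h₁ ≤ H, ∀ h₂ ≤ H, ‖cr (fn (cmp c ψ)) h₁ h₂ x - 1‖ < ε := by
  have hset : {ψ : Nat.Primes → T | ∃ y ∈ X, H ≤ y ∧ ∀ x, y ≤ x → x ≤ Φ y →
      ∀ h₁ ≤ H, ∀ h₂ ≤ H, ‖cr (fn (cmp c ψ)) h₁ h₂ x - 1‖ < ε}
      = ⋃ y ∈ {y | y ∈ X ∧ H ≤ y}, ⋂ q ∈ Finset.Icc y (Φ y) ×ˢ (Finset.Iic H ×ˢ Finset.Iic H),
        {ψ : Nat.Primes → T | ‖cr (fn (cmp c ψ)) q.2.1 q.2.2 q.1 - 1‖ < ε} := by
    ext ψ
    simp only [Set.mem_ofPred_eq, Set.mem_iUnion, Set.mem_iInter, exists_prop, Finset.mem_product,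
      Finset.mem_Icc, Finset.mem_Iic, Prod.forall]
    constructor
    · rintro ⟨y, hy, hH, h⟩
      exact ⟨y, ⟨hy, hH⟩, fun x h₁ h₂ hq => h x hq.1.1 hq.1.2 h₁ hq.2.1 h₂ hq.2.2⟩
    · rintro ⟨y, ⟨hy, hH⟩, h⟩
      exact ⟨y, hy, hH, fun x hx1 hx2 h₁ h1 h₂ h2 => h x h₁ h₂ ⟨⟨hx1, hx2⟩, h1, h2⟩⟩
  apply residual_of_dense_open
  · rw [hset]
    apply isOpen_biUnion
    intro y _
    apply isOpen_biInter_finset
    intro q _
    exact isOpen_lt (((cont_cr _ _ _).comp (cont_cmp c hc)).sub continuous_const).norm continuous_const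
  · apply dense_of
    intro ψ₀ P
    obtain ⟨t, ht, hnear⟩ := kron_primes (gv (cmp c ψ₀)) (fun p _ => norm_gv _ p) P (ε / 8 / (P + 1))
      (by positivity) 0
    obtain ⟨ψ, hψ1, hψ2⟩ : ∃ ψ : Nat.Primes → T, (∀ p : Nat.Primes, (p : ℕ) < P → ψ p = ψ₀ p) ∧
        (∀ p : ℕ, p.Prime → P ≤ p → gv (cmp c ψ) p = (p : ℂ) ^ ((t : ℂ) * I)) := by
      refine ⟨fun p => if (p : ℕ) < P then ψ₀ p else (hs (Circle.exp (t * Real.log (p : ℕ)))).choose,
        fun p hp => if_pos hp, ?_⟩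
      intro p hp hPp
      have hpC : (p : ℂ) ≠ 0 := by exact_mod_cast hp.ne_zero
      rw [gv_prime _ p hp]
      unfold cmp
      simp only
      rw [if_neg (by omega), (hs (Circle.exp (t * Real.log (p : ℕ)))).choose_spec, Circle.coe_exp,
        Complex.cpow_def_of_ne_zero hpC, ← Complex.natCast_log]
      congr 1
      push_cast
      ring
    have hsum : ∀ Z : ℕ, ∑ p ∈ (Z + 1).primesBelow, ‖gv (cmp c ψ) p - (p : ℂ) ^ ((t : ℂ) * I)‖ ≤ ε / 8 := by
      intro Z
      have h1 : ∀ p ∈ (Z + 1).primesBelow, ‖gv (cmp c ψ) p - (p : ℂ) ^ ((t : ℂ) * I)‖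
          ≤ if p < P then ε / 8 / (P + 1) else 0 := by
        intro p hp
        have hpp := Nat.prime_of_mem_primesBelow hp
        split_ifs with hlt
        · have h2 := hnear p hlt hpp
          have h3 : gv (cmp c ψ) p = gv (cmp c ψ₀) p := by
            rw [gv_prime _ p hpp, gv_prime _ p hpp]
            unfold cmp
            rw [hψ1 ⟨p, hpp⟩ hlt]
          rw [h3]
          exact h2
        · rw [hψ2 p hpp (by omega), sub_self, norm_zero]
      refine (Finset.sum_le_sum h1).trans ?_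
      rw [← Finset.sum_filter, Finset.sum_const, nsmul_eq_mul]
      have h2 : ((((Z + 1).primesBelow.filter (fun p => p < P)).card : ℕ) : ℝ) ≤ P := by
        have h3 : (Z + 1).primesBelow.filter (fun p => p < P) ⊆ Finset.range P := by
          intro p hp
          rw [Finset.mem_filter] at hp
          exact Finset.mem_range.2 hp.2
        have h4 := Finset.card_le_card h3
        rw [Finset.card_range] at h4
        exact_mod_cast h4
      calc ((((Z + 1).primesBelow.filter (fun p => p < P)).card : ℕ) : ℝ) * (ε / 8 / (P + 1))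
          ≤ P * (ε / 8 / (P + 1)) := mul_le_mul_of_nonneg_right h2 (by positivity)
        _ ≤ ε / 8 := by
          rw [mul_div_assoc', div_le_iff₀ (by positivity)]
          nlinarith
    obtain ⟨x₀, hx₀⟩ := corr_ge (gv (cmp c ψ)) (fun p _ => norm_gv _ p) t ht ε hε hsum H
    obtain ⟨y, hy, hy2⟩ := hX.exists_gt (max x₀ H)
    refine ⟨ψ, ⟨y, hy, (le_max_right _ _).trans hy2.le, fun x hx _ h₁ h1 h₂ h2 => ?_⟩, hψ1⟩
    exact hx₀ x (((le_max_left _ _).trans hy2.le).trans hx) h₁ h1 h₂ h2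

end Pool.Agent.H1.TF
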