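import Mathlib
import Pool.Agent.H1.TF.Top
import Pool.Agent.H2.EL.W050

/-!
MP_050d88_nt, typical functions: typical functions satisfy Q1 on long windows of scales.
-/

set_option autoImplicit false

namespace Pool.Agent.H1.TF

open Complex Filter Topology Pool.Agent.H1.Ell

/-- the squared distance to `1` up to `x` -/
noncomputable def d1 (f : ℕ → ℂ) (x : ℕ) : ℝ := ∑ p ∈ (x + 1).primesBelow, (1 - (f p).re) / (p : ℝ)

private theorem dS_eq (f : ℕ → ℂ) (x : ℕ) : Pool.H2.EL.dS f (1 : DirichletCharacter ℂ 1) 0 x = d1 f x := by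
  unfold Pool.H2.EL.dS d1
  have h1 : Finset.filter Nat.Prime (Finset.Iic x) = (x + 1).primesBelow := by
    ext p
    rw [Finset.mem_filter, Finset.mem_Iic, Nat.mem_primesBelow]
    constructor <;> rintro ⟨h1, h2⟩ <;> exact ⟨by omega, h2⟩
  rw [h1]
  refine Finset.sum_congr rfl fun p _ => ?_
  have h2 : (1 : DirichletCharacter ℂ 1) ((p : ℕ) : ZMod 1) = 1 :=
    MulChar.one_apply (isUnit_of_subsingleton _)
  rw [h2]
  simp

private theorem term_nn (φ : Nat.Primes → Circle) (p : ℕ) : 0 ≤ (1 - (fn φ p).re) / (p : ℝ) := by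
  apply div_nonneg _ (Nat.cast_nonneg _)
  have h1 := Complex.re_le_norm (fn φ p)
  rw [norm_fn] at h1
  linarith

private theorem cont_d1 (x : ℕ) : Continuous (fun φ : Nat.Primes → Circle => d1 (fn φ) x) := by
  unfold d1
  exact continuous_finsetSum _ fun p _ =>
    (continuous_const.sub (Complex.continuous_re.comp (cont_fn p))).div_const _

/-- a function which takes the value `c b` at the primes from `P` to `x` and `1` at the larger ones -/
theorem two_phase {T : Type} (c : T → Circle) (a b : T) (ha : c a = 1) (ψ₀ : Nat.Primes → T) (P x : ℕ)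
    (hxP : P ≤ x) : ∃ ψ : Nat.Primes → T, (∀ p : Nat.Primes, (p : ℕ) < P → ψ p = ψ₀ p) ∧
      (∀ p : ℕ, p.Prime → P ≤ p → p ≤ x → fn (cmp c ψ) p = c b) ∧
      (∀ p : ℕ, p.Prime → x < p → fn (cmp c ψ) p = 1) := by
  refine ⟨fun p => if (p : ℕ) < P then ψ₀ p else if (p : ℕ) ≤ x then b else a, fun p hp => if_pos hp, ?_, ?_⟩
  · intro p hp hPp hpx
    rw [fn_prime _ p hp]
    unfold cmp
    simp only
    rw [if_neg (by omega), if_pos hpx]
  · intro p hp hpx
    rw [fn_prime _ p hp]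
    unfold cmp
    simp only
    rw [if_neg (by omega), if_neg (by omega), ha]
    exact Circle.coe_one

theorem re_lt_one (z : Circle) (hz : z ≠ 1) : (z : ℂ).re < 1 := by
  have h1 : (z : ℂ).re ≤ 1 := by
    have := Complex.re_le_norm (z : ℂ)
    rwa [Circle.norm_coe] at this
  refine lt_of_le_of_ne h1 fun h2 => hz ?_
  have h3 : Complex.normSq (z : ℂ) = 1 := by
    rw [Complex.normSq_eq_norm_sq, Circle.norm_coe]
    norm_num
  rw [Complex.normSq_apply, h2] at h3
  have h4 : (z : ℂ).im = 0 := by nlinarith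
  apply Circle.ext
  rw [Circle.coe_one]
  exact Complex.ext h2 h4

/-- a long window beginning in `X` on which `φ` is close to `1`, while it is far from `1` before -/
theorem res_w {T : Type} [TopologicalSpace T] (c : T → Circle) (hc : Continuous c) (a b : T) (ha : c a = 1)
    (hb : c b ≠ 1) (Φ : ℕ → ℕ) (X : Set ℕ) (hX : X.Infinite) (j : ℕ) :
    ∀ᶠ ψ in residual (Nat.Primes → T), ∃ y ∈ X, j + 2 ≤ y ∧ ∃ x, 1 ≤ x ∧ x ^ (j + 1) ≤ y ∧
      d1 (fn (cmp c ψ)) (Φ y) - d1 (fn (cmp c ψ)) x < 1 / ((j : ℝ) + 1) ∧ (j : ℝ) < d1 (fn (cmp c ψ)) x := by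
  apply residual_of_dense_open
  · have hset : {ψ : Nat.Primes → T | ∃ y ∈ X, j + 2 ≤ y ∧ ∃ x, 1 ≤ x ∧ x ^ (j + 1) ≤ y ∧
        d1 (fn (cmp c ψ)) (Φ y) - d1 (fn (cmp c ψ)) x < 1 / ((j : ℝ) + 1) ∧ (j : ℝ) < d1 (fn (cmp c ψ)) x}
        = ⋃ y ∈ {y | y ∈ X ∧ j + 2 ≤ y}, ⋃ x ∈ {x | 1 ≤ x ∧ x ^ (j + 1) ≤ y},
          ({ψ : Nat.Primes → T | d1 (fn (cmp c ψ)) (Φ y) - d1 (fn (cmp c ψ)) x < 1 / ((j : ℝ) + 1)} ∩
            {ψ : Nat.Primes → T | (j : ℝ) < d1 (fn (cmp c ψ)) x}) := by
      ext ψ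
      simp only [Set.mem_ofPred_eq, Set.mem_iUnion, Set.mem_inter_iff, exists_prop]
      constructor
      · rintro ⟨y, hy, hH, x, hx1, hx2, h⟩
        exact ⟨y, ⟨hy, hH⟩, x, ⟨hx1, hx2⟩, h⟩
      · rintro ⟨y, ⟨hy, hH⟩, x, ⟨hx1, hx2⟩, h⟩
        exact ⟨y, hy, hH, x, hx1, hx2, h⟩
    rw [hset]
    apply isOpen_biUnion
    intro y _
    apply isOpen_biUnion
    intro x _
    have hcd : ∀ z, Continuous (fun ψ : Nat.Primes → T => d1 (fn (cmp c ψ)) z) :=
      fun z => (cont_d1 z).comp (cont_cmp c hc)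
    exact (isOpen_lt ((hcd _).sub (hcd _)) continuous_const).inter (isOpen_lt continuous_const (hcd _))
  · apply dense_of
    intro ψ₀ P
    obtain ⟨κ, hκ⟩ : ∃ κ : ℝ, κ = 1 - (c b : ℂ).re := ⟨_, rfl⟩
    have hκ0 : 0 < κ := by
      have := re_lt_one (c b) hb
      linarith
    obtain ⟨X₁, hX₁⟩ := exists_prime_sum_ge (((j : ℝ) + 1) / κ + P)
    obtain ⟨x, hxd⟩ : ∃ x, x = max (max X₁ 1) P := ⟨_, rfl⟩
    have hxX : X₁ ≤ x := by rw [hxd]; exact (le_max_left _ _).trans (le_max_left _ _)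
    have hx1 : 1 ≤ x := by rw [hxd]; exact (le_max_right _ _).trans (le_max_left _ _)
    have hxP : P ≤ x := by rw [hxd]; exact le_max_right _ _
    obtain ⟨ψ, hψ1, hψ2, hψ3⟩ := two_phase c a b ha ψ₀ P x hxP
    have hbig : (j : ℝ) < d1 (fn (cmp c ψ)) x := by
      have h1 : ∑ p ∈ X₁.primesBelow, κ * ((1 : ℝ) / p) ≤ ∑ p ∈ (x + 1).primesBelow,
          ((1 - (fn (cmp c ψ) p).re) / (p : ℝ) + if p < P then κ else 0) := by
        refine (Finset.sum_le_sum_of_subset_of_nonneg (t := (x + 1).primesBelow) ?_ ?_).trans ?_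
        · intro p hp
          rw [Nat.mem_primesBelow] at hp ⊢
          exact ⟨by omega, hp.2⟩
        · intro p _ _
          positivity
        · apply Finset.sum_le_sum
          intro p hp
          rw [Nat.mem_primesBelow] at hp
          have hp1 : (1 : ℝ) ≤ p := by exact_mod_cast hp.2.one_lt.le
          have h2 := term_nn (cmp c ψ) p
          split_ifs with hlt
          · have h3 : (1 : ℝ) / p ≤ 1 := by
              rw [div_le_one (by linarith)]
              exact hp1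
            nlinarith
          · rw [hψ2 p hp.2 (by omega) (by omega), add_zero, ← hκ, mul_one_div]
      rw [← Finset.mul_sum, Finset.sum_add_distrib, ← Finset.sum_filter, Finset.sum_const, nsmul_eq_mul] at h1
      have h4 : ((((x + 1).primesBelow.filter (fun p => p < P)).card : ℕ) : ℝ) ≤ P := by
        have h5 : (x + 1).primesBelow.filter (fun p => p < P) ⊆ Finset.range P := by
          intro p hp
          rw [Finset.mem_filter] at hp
          exact Finset.mem_range.2 hp.2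
        have h6 := Finset.card_le_card h5
        rw [Finset.card_range] at h6
        exact_mod_cast h6
      have h5 := mul_le_mul_of_nonneg_left hX₁ hκ0.le
      have h6 : κ * (((j : ℝ) + 1) / κ + P) = (j : ℝ) + 1 + κ * P := by
        field_simp
      have h7 := mul_le_mul_of_nonneg_right h4 hκ0.le
      unfold d1
      rw [h6] at h5
      linarith
    have hsm : ∀ y, d1 (fn (cmp c ψ)) y ≤ d1 (fn (cmp c ψ)) x := by
      intro y
      unfold d1
      have h1 : ∑ p ∈ (y + 1).primesBelow, (1 - (fn (cmp c ψ) p).re) / (p : ℝ)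
          = ∑ p ∈ (y + 1).primesBelow.filter (fun p => p ≤ x), (1 - (fn (cmp c ψ) p).re) / (p : ℝ) := by
        symm
        apply Finset.sum_subset (Finset.filter_subset _ _)
        intro p hp hp'
        rw [Finset.mem_filter] at hp'
        have hpp := Nat.prime_of_mem_primesBelow hp
        have hlt : x < p := by
          by_contra h
          exact hp' ⟨hp, by omega⟩
        rw [hψ3 p hpp hlt, Complex.one_re, sub_self, zero_div]
      rw [h1]
      apply Finset.sum_le_sum_of_subset_of_nonneg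
      · intro p hp
        rw [Finset.mem_filter, Nat.mem_primesBelow] at hp
        rw [Nat.mem_primesBelow]
        exact ⟨by omega, hp.1.2⟩
      · intro p _ _
        exact term_nn (cmp c ψ) p
    obtain ⟨y, hy, hy2⟩ := hX.exists_gt (max (x ^ (j + 1)) (j + 2))
    refine ⟨ψ, ⟨y, hy, (le_max_right _ _).trans hy2.le, x, hx1, (le_max_left _ _).trans hy2.le, ?_, hbig⟩, hψ1⟩
    have h1 := hsm (Φ y)
    have h2 : (0 : ℝ) < 1 / ((j : ℝ) + 1) := by positivity
    linarith

open Pool.H2.EL Pool.Agent.H4.El in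
/-- the averages are small at the scales of a window -/
theorem good_scales (f₁ : ℕ → ℂ) (hf : Pool.Agent.H4.El.IsMult f₁) (k : ℕ) (h : Fin (k + 1) → ℕ)
    (hne : ∀ i, i ≠ 0 → h i ≠ h 0) (ε : ℝ) (hε : 0 < ε) :
    ∃ (α D : ℝ) (X₀ : ℕ), 0 < α ∧ ∀ N : ℕ, X₀ ≤ N → ∀ x z : ℕ, (x : ℝ) ≤ (N : ℝ) ^ α → x ≤ N → N ≤ z →
      d1 f₁ z - d1 f₁ x ≤ α → D ≤ d1 f₁ x →
      ∀ F : Fin (k + 1) → ℕ → ℂ, F 0 = f₁ → (∀ i, Pool.Agent.H4.El.IsMult (F i)) → ‖avg F h N‖ ≤ ε := by
  classical
  obtain ⟨α, hα, hA⟩ := resA (k + 1) (fun i => (h i : ℤ)) hε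
  obtain ⟨D, X₀, hX⟩ := hA 1
  refine ⟨α, D, X₀, hα, ?_⟩
  intro N hN x z hxα hxN hNz hsm hbig F hF0 hF
  have hfb : ∀ n, ‖toA f₁ n‖ ≤ 1 := toA_bdd hf
  have htrm : ∀ (q : ℕ) (χ : DirichletCharacter ℂ q) (t : ℝ) (p : ℕ), p.Prime →
      trm f₁ χ t p = trm (fun n => toA f₁ n) χ t p := by
    intro q χ t p hp
    unfold trm
    simp only [toA_pos f₁ hp.pos]
  have hnn : ∀ (q : ℕ) (χ : DirichletCharacter ℂ q) (t : ℝ) (p : ℕ), p.Prime →
      0 ≤ trm f₁ χ t p := by
    intro q χ t p hp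
    rw [htrm q χ t p hp]
    exact (term_bd (fun n => toA f₁ n) hfb χ t p hp).1
  rw [← dS_eq, ← dS_eq] at hsm
  rw [← dS_eq] at hbig
  have h1 := hX N hN (fun i => toA (F i)) (fun i => toA_mult (hF i))
    (fun i => toA_bdd (hF i)) 0 (fun i hi h' => hne i hi (by exact_mod_cast h')) 1 1 0
    one_pos le_rfl (by rw [abs_zero]; exact Nat.cast_nonneg N)
    (by
      simp only [hF0]
      refine le_trans ?_ hsm
      rw [dS_sub f₁ (1 : DirichletCharacter ℂ 1) 0 _ _ (hxN.trans hNz)]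
      unfold Pool.Agent.H1.LP.distSq
      rw [Nat.floor_natCast]
      calc ∑ p ∈ (Finset.Ioc ⌊(N : ℝ) ^ α⌋₊ N).filter Nat.Prime,
            (1 - (toA f₁ p * starRingEnd ℂ ((1 : DirichletCharacter ℂ 1) (p : ZMod 1) *
              (p : ℂ) ^ (Complex.I * ((0 : ℝ) : ℂ)))).re) / (p : ℝ)
          = ∑ p ∈ (Finset.Ioc ⌊(N : ℝ) ^ α⌋₊ N).filter Nat.Prime, trm f₁ (1 : DirichletCharacter ℂ 1) 0 p := by
            refine Finset.sum_congr rfl fun p hp => ?_
            rw [Finset.mem_filter] at hp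
            rw [htrm _ _ _ p hp.2]
            rfl
        _ ≤ _ := by
            refine Finset.sum_le_sum_of_subset_of_nonneg ?_ fun p hp _ => ?_
            · apply Finset.filter_subset_filter
              apply Finset.Ioc_subset_Ioc _ hNz
              exact Nat.le_floor hxα
            · rw [Finset.mem_filter] at hp
              exact hnn _ _ _ p hp.2)
    (by
      simp only [hF0]
      refine hbig.trans ?_
      unfold Pool.Agent.H1.LP.distSq dS
      rw [Nat.floor_zero, Nat.floor_natCast]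
      calc ∑ p ∈ (Finset.Iic x).filter Nat.Prime,
            (1 - (f₁ p * starRingEnd ℂ ((1 : DirichletCharacter ℂ 1) (p : ZMod 1) *
              (p : ℂ) ^ (Complex.I * ((0 : ℝ) : ℂ)))).re) / (p : ℝ)
          ≤ ∑ p ∈ (Finset.Ioc 0 N).filter Nat.Prime, trm f₁ (1 : DirichletCharacter ℂ 1) 0 p := by
            refine Finset.sum_le_sum_of_subset_of_nonneg ?_ fun p hp _ => ?_
            · intro p hp
              rw [Finset.mem_filter, Finset.mem_Iic] at hp
              rw [Finset.mem_filter, Finset.mem_Ioc]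
              exact ⟨⟨hp.2.pos, hp.1.trans hxN⟩, hp.2⟩
            · rw [Finset.mem_filter] at hp
              exact hnn _ _ _ p hp.2
        _ = _ := by
            refine Finset.sum_congr rfl fun p hp => ?_
            rw [Finset.mem_filter] at hp
            rw [htrm _ _ _ p hp.2]
            rfl)
  have h2 : avg F h N = (1 / (N : ℂ)) * ∑ n ∈ Finset.Icc 1 N,
      ∏ i, toA (F i) ((n : ℤ) + (h i : ℤ)).toNat := by
    unfold avg
    congr 1
    refine Finset.sum_congr rfl fun n hn => Finset.prod_congr rfl fun i _ => ?_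
    rw [Finset.mem_Icc] at hn
    have h3 : ((n : ℤ) + (h i : ℤ)).toNat = n + h i := by omega
    rw [h3, toA_pos _ (by omega)]
  rw [h2]
  exact h1

end Pool.Agent.H1.TF
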