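import Mathlib
import Pool.Agent.H1.EllBlock

/-!
MP_050d88_nt, typical functions: divergence of the distance between 1 and twisted characters.
-/

set_option autoImplicit false

namespace Pool.Agent.H1.TF

open Filter Topology Complex Pool.Agent.H1.Ell

theorem S_unbdd {q : ℕ} [NeZero q] (χ : DirichletCharacter ℂ q) {u : ℝ} (hu : u ≠ 0 ∨ χ ≠ 1) (B : ℝ) :
    ∃ X : ℕ, B < S χ u X := by
  by_contra hcon
  push Not at hcon
  -- bound for the L-function near `1 + iu`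
  obtain ⟨C, hC⟩ := (DirichletCharacter.LFunction_isBigO_horizontal (χ := χ) hu).bound
  set C' : ℝ := max C 1 with hC'
  -- the sum of squares
  have hsq : Summable (fun p : Nat.Primes => ((p : ℕ) : ℝ) ^ (-2 : ℝ)) :=
    Nat.Primes.summable_rpow.mpr (by norm_num)
  set C2 : ℝ := ∑' p : Nat.Primes, ((p : ℕ) : ℝ) ^ (-2 : ℝ) with hC2
  obtain ⟨X, hX⟩ := exists_prime_sum_ge (B + Real.log C' + C2 + 2)
  -- continuity of the finite sum
  have hcont : Tendsto (fun x : ℝ => ∑ p ∈ X.primesBelow, (p : ℝ) ^ (-(1 + x))) (𝓝[>] 0)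
      (𝓝 (∑ p ∈ X.primesBelow, (1 : ℝ) / p)) := by
    apply tendsto_finsetSum
    intro p hp
    have hp0 : (0 : ℝ) < p := by exact_mod_cast (Nat.prime_of_mem_primesBelow hp).pos
    have h1 : ContinuousAt (fun x : ℝ => (p : ℝ) ^ (-(1 + x))) 0 := by
      apply ContinuousAt.rpow continuousAt_const
      · fun_prop
      · left; exact hp0.ne'
    have h2 : (p : ℝ) ^ (-(1 + (0 : ℝ))) = 1 / p := by
      rw [add_zero, Real.rpow_neg_one, one_div]
    have h3 := h1.tendsto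
    rw [h2] at h3
    exact h3.mono_left nhdsWithin_le_nhds
  have hev := hcont.eventually (lt_mem_nhds (show ∑ p ∈ X.primesBelow, (1 : ℝ) / p - 1
    < ∑ p ∈ X.primesBelow, (1 : ℝ) / p by linarith))
  obtain ⟨x, ⟨hx1, hx2⟩, hx0⟩ := ((hev.and hC).and self_mem_nhdsWithin).exists
  have hx0' : (0 : ℝ) < x := hx0
  set s : ℂ := 1 + x + I * u with hs
  have hsre : s.re = 1 + x := by simp [hs]
  have hs1 : 1 < s.re := by rw [hsre]; linarith
  have hsum := DirichletCharacter.summable_neg_log_one_sub_mul_prime_cpow χ hs1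
  have hexp := DirichletCharacter.LSeries_eulerProduct_exp_log χ hs1
  have hL : ‖LSeries (fun n => χ n) s‖ ≤ C' := by
    rw [← DirichletCharacter.LFunction_eq_LSeries χ hs1]
    have : ‖DirichletCharacter.LFunction χ (1 + x + I * u)‖ ≤ C * ‖(1 : ℂ)‖ := hx2
    rw [norm_one, mul_one] at this
    exact this.trans (le_max_left _ _)
  rw [← hexp, Complex.norm_exp, Complex.re_tsum hsum] at hL
  have hlog : ∑' p : Nat.Primes, (-Complex.log (1 - χ p * (p : ℂ) ^ (-s))).re ≤ Real.log C' := by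
    rw [← Real.log_exp (∑' p : Nat.Primes, (-Complex.log (1 - χ p * (p : ℂ) ^ (-s))).re)]
    exact Real.log_le_log (Real.exp_pos _) hL
  -- termwise comparison
  have hnorm : ∀ p : Nat.Primes, ‖χ p * (p : ℂ) ^ (-s)‖ ≤ ((p : ℕ) : ℝ) ^ (-(1 + x)) := by
    intro p
    rw [norm_mul, Complex.norm_natCast_cpow_of_pos p.2.pos]
    have h1 : (-s).re = -(1 + x) := by rw [Complex.neg_re, hsre]
    rw [h1]
    have h2 := χ.norm_le_one (p : ZMod q)
    have h3 : (0 : ℝ) ≤ ((p : ℕ) : ℝ) ^ (-(1 + x)) := by positivity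
    calc ‖χ p‖ * ((p : ℕ) : ℝ) ^ (-(1 + x)) ≤ 1 * ((p : ℕ) : ℝ) ^ (-(1 + x)) :=
          mul_le_mul_of_nonneg_right h2 h3
      _ = _ := one_mul _
  have hple : ∀ p : Nat.Primes, ((p : ℕ) : ℝ) ^ (-(1 + x)) ≤ 1 / ((p : ℕ) : ℝ) := by
    intro p
    have h1 : (1 : ℝ) ≤ ((p : ℕ) : ℝ) := by exact_mod_cast p.2.one_lt.le
    have h2 : ((p : ℕ) : ℝ) ^ (-(1 + x)) ≤ ((p : ℕ) : ℝ) ^ (-1 : ℝ) :=
      Real.rpow_le_rpow_of_exponent_le h1 (by linarith)
    rwa [Real.rpow_neg_one, ← one_div] at h2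
  have hterm : ∀ p : Nat.Primes, (χ p * (p : ℂ) ^ (-s)).re
      ≤ (-Complex.log (1 - χ p * (p : ℂ) ^ (-s))).re + ((p : ℕ) : ℝ) ^ (-2 : ℝ) := by
    intro p
    set z : ℂ := χ p * (p : ℂ) ^ (-s) with hz
    have hp2 : (2 : ℝ) ≤ ((p : ℕ) : ℝ) := by exact_mod_cast p.2.two_le
    have hz1 : ‖z‖ ≤ 1 / ((p : ℕ) : ℝ) := (hnorm p).trans (hple p)
    have hz2 : ‖z‖ ≤ 1 / 2 := hz1.trans (by
      apply div_le_div_of_nonneg_left <;> linarith)
    have hz3 : ‖z‖ < 1 := by linarith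
    have h1 := Complex.norm_log_one_sub_inv_sub_self_le hz3
    have h2 : Complex.log (1 - z)⁻¹ = -Complex.log (1 - z) := by
      rw [Complex.log_inv]
      intro harg
      have h4 : 0 < (1 - z).re := by
        have := Complex.re_le_norm z
        rw [Complex.sub_re, Complex.one_re]
        linarith
      have h6 := (Complex.abs_arg_lt_pi_div_two_iff).mpr (Or.inl h4)
      rw [harg, abs_of_pos Real.pi_pos] at h6
      linarith [Real.pi_pos]
    rw [h2] at h1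
    have h3 : ‖z‖ ^ 2 * (1 - ‖z‖)⁻¹ / 2 ≤ ‖z‖ ^ 2 := by
      have h4 : (1 - ‖z‖)⁻¹ ≤ 2 := by
        rw [inv_le_comm₀ (by linarith) (by norm_num)]
        linarith
      have h5 : 0 ≤ ‖z‖ ^ 2 := by positivity
      nlinarith
    have h4 : ‖z‖ ^ 2 ≤ ((p : ℕ) : ℝ) ^ (-2 : ℝ) := by
      have h5 : ((p : ℕ) : ℝ) ^ (-2 : ℝ) = (1 / ((p : ℕ) : ℝ)) ^ 2 := by
        rw [Real.rpow_neg (by positivity), one_div, inv_pow]
        norm_cast
      rw [h5]
      exact pow_le_pow_left₀ (norm_nonneg _) hz1 2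
    have h5 : (z - -Complex.log (1 - z)).re ≤ ‖-Complex.log (1 - z) - z‖ := by
      rw [norm_sub_rev]
      exact Complex.re_le_norm _
    rw [Complex.sub_re] at h5
    linarith
  have hsumz : Summable (fun p : Nat.Primes => χ p * (p : ℂ) ^ (-s)) := by
    apply Summable.of_norm_bounded (g := fun p : Nat.Primes => ((p : ℕ) : ℝ) ^ (-(1 + x)))
    · exact Nat.Primes.summable_rpow.mpr (by linarith)
    · exact hnorm
  have hsumzre : Summable (fun p : Nat.Primes => (χ p * (p : ℂ) ^ (-s)).re) :=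
    (Complex.hasSum_re hsumz.hasSum).summable
  have hsumlog : Summable (fun p : Nat.Primes => (-Complex.log (1 - χ p * (p : ℂ) ^ (-s))).re) :=
    (Complex.hasSum_re hsum.hasSum).summable
  have h1 : ∑' p : Nat.Primes, (χ p * (p : ℂ) ^ (-s)).re ≤ Real.log C' + C2 := by
    have h2 := Summable.tsum_le_tsum hterm hsumzre (hsumlog.add hsq)
    rw [Summable.tsum_add hsumlog hsq] at h2
    linarith
  have hsump : Summable (fun p : Nat.Primes => ((p : ℕ) : ℝ) ^ (-(1 + x))) :=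
    Nat.Primes.summable_rpow.mpr (by linarith)
  -- upper bound for the weighted sum
  have h2 : ∑' p : Nat.Primes, (((p : ℕ) : ℝ) ^ (-(1 + x)) - (χ p * (p : ℂ) ^ (-s)).re) ≤ B := by
    have hfac : ∀ p : Nat.Primes, (((p : ℕ) : ℝ) ^ (-(1 + x)) - (χ p * (p : ℂ) ^ (-s)).re)
        = (1 - (χ p * (p : ℂ) ^ (-(u : ℂ) * I)).re) * ((p : ℕ) : ℝ) ^ (-(1 + x)) := by
      intro p
      have hp0 : ((p : ℕ) : ℂ) ≠ 0 := by exact_mod_cast p.2.ne_zero
      have e1 : -s = ((-(1 + x) : ℝ) : ℂ) + (-(u : ℂ) * I) := by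
        rw [hs]; push_cast; ring
      have e2 : ((p : ℕ) : ℂ) ^ (((-(1 + x) : ℝ) : ℂ)) = ((((p : ℕ) : ℝ) ^ (-(1 + x)) : ℝ) : ℂ) := by
        rw [Complex.ofReal_cpow (by positivity)]
        norm_cast
      rw [e1, Complex.cpow_add _ _ hp0, e2]
      have e3 : χ p * (((((p : ℕ) : ℝ) ^ (-(1 + x)) : ℝ) : ℂ) * ((p : ℕ) : ℂ) ^ (-(u : ℂ) * I))
          = ((((p : ℕ) : ℝ) ^ (-(1 + x)) : ℝ) : ℂ) * (χ p * ((p : ℕ) : ℂ) ^ (-(u : ℂ) * I)) := by ring
      rw [e3, Complex.re_ofReal_mul]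
      ring
    apply Real.tsum_le_of_sum_le
    · intro p
      show 0 ≤ (((p : ℕ) : ℝ) ^ (-(1 + x)) - (χ p * (p : ℂ) ^ (-s)).re)
      rw [hfac p]
      have h3 := (Complex.re_le_norm _).trans (norm_char_cpow_le χ u p p.2.pos)
      apply mul_nonneg _ (by positivity)
      linarith
    · intro F
      obtain ⟨Y, hY⟩ : ∃ X : ℕ, ∀ p ∈ F, (p : ℕ) < X := by
        refine ⟨F.sup (fun p : Nat.Primes => (p : ℕ)) + 1, fun p hp => ?_⟩
        exact Nat.lt_succ_of_le (Finset.le_sup (f := fun p : Nat.Primes => (p : ℕ)) hp)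
      refine le_trans ?_ (hcon Y)
      have h3 : ∑ p ∈ F, (((p : ℕ) : ℝ) ^ (-(1 + x)) - (χ p * (p : ℂ) ^ (-s)).re)
          ≤ ∑ p ∈ F, (1 - (χ (p : ℕ) * ((p : ℕ) : ℂ) ^ (-(u : ℂ) * I)).re) / ((p : ℕ) : ℝ) := by
        apply Finset.sum_le_sum
        intro p _
        rw [hfac p, div_eq_mul_one_div]
        apply mul_le_mul_of_nonneg_left (hple p)
        have h3 := (Complex.re_le_norm _).trans (norm_char_cpow_le χ u p p.2.pos)
        linarith
      refine h3.trans ?_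
      have h4 : ∑ p ∈ F, (1 - (χ (p : ℕ) * ((p : ℕ) : ℂ) ^ (-(u : ℂ) * I)).re) / ((p : ℕ) : ℝ)
          = ∑ p ∈ F.map ⟨fun p : Nat.Primes => (p : ℕ), Subtype.val_injective⟩,
            (1 - (χ p * (p : ℂ) ^ (-(u : ℂ) * I)).re) / p := by
        rw [Finset.sum_map]; rfl
      rw [h4]
      unfold S
      apply Finset.sum_le_sum_of_subset_of_nonneg
      · intro p hp
        rw [Finset.mem_map] at hp
        obtain ⟨p', hp', rfl⟩ := hp
        rw [Nat.mem_primesBelow]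
        exact ⟨hY p' hp', p'.2⟩
      · intro p hp _
        exact term_nonneg χ u p (Nat.prime_of_mem_primesBelow hp).pos
  rw [Summable.tsum_sub hsump hsumzre] at h2
  have h3 : ∑ p ∈ X.primesBelow, (p : ℝ) ^ (-(1 + x)) ≤ ∑' p : Nat.Primes, ((p : ℕ) : ℝ) ^ (-(1 + x)) :=
    sum_primesBelow_le_tsum X (fun p : ℕ => (p : ℝ) ^ (-(1 + x))) (fun p => by positivity) hsump
  have h5 : 0 ≤ C2 := tsum_nonneg (fun p => by positivity)
  linarith

end Pool.Agent.H1.TF
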