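import Mathlib
import Pool.Agent.H1.TF.GW
import Pool.Agent.H1.TF.SUn
import Pool.Agent.H1.EllCor

/-!
MP_050d88_nt, typical functions: typical functions are non-pretentious.
-/

set_option autoImplicit false

namespace Pool.Agent.H1.TF

open Complex Filter Topology Pool.Agent.H1.Ell

/-- the twisted character -/
noncomputable def tw {q : ℕ} (χ : DirichletCharacter ℂ q) (t : ℝ) (n : ℕ) : ℂ := χ n * (n : ℂ) ^ ((t : ℂ) * I)

theorem norm_tw {q : ℕ} (χ : DirichletCharacter ℂ q) (t : ℝ) (n : ℕ) (hn : 0 < n) : ‖tw χ t n‖ ≤ 1 := by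
  unfold tw
  rw [norm_mul, norm_cpow_I n hn, mul_one]
  exact χ.norm_le_one _

theorem distSq_mono (f : ℕ → ℂ) (hf : ∀ n, ‖f n‖ ≤ 1) {q : ℕ} (χ : DirichletCharacter ℂ q) (t : ℝ) :
    Monotone (distSq f (tw χ t)) := by
  intro x y hxy
  unfold distSq
  apply Finset.sum_le_sum_of_subset_of_nonneg
  · intro p hp
    rw [Nat.mem_primesBelow] at hp ⊢
    exact ⟨by omega, hp.2⟩
  · intro p hp _
    exact dist_term_nonneg f _ p (hf p) (norm_tw χ t p (Nat.prime_of_mem_primesBelow hp).pos)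

theorem cont_distSq {q : ℕ} (χ : DirichletCharacter ℂ q) (x : ℕ) :
    Continuous (fun z : (Nat.Primes → Circle) × ℝ => distSq (fn z.1) (tw χ z.2) x) := by
  unfold distSq tw
  apply continuous_finsetSum
  intro p hp
  have hp0 : ((p : ℕ) : ℂ) ≠ 0 := by exact_mod_cast (Nat.prime_of_mem_primesBelow hp).ne_zero
  apply Continuous.div_const
  apply Continuous.sub continuous_const
  apply Complex.continuous_re.comp
  apply Continuous.mul ((cont_fn p).comp continuous_fst)
  apply Complex.continuous_conj.comp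
  apply Continuous.mul continuous_const
  apply Continuous.const_cpow _ (Or.inl hp0)
  fun_prop

theorem cont_distSq' (f : ℕ → ℂ) {q : ℕ} (χ : DirichletCharacter ℂ q) (x : ℕ) :
    Continuous (fun t : ℝ => distSq f (tw χ t) x) := by
  unfold distSq tw
  apply continuous_finsetSum
  intro p hp
  have hp0 : ((p : ℕ) : ℂ) ≠ 0 := by exact_mod_cast (Nat.prime_of_mem_primesBelow hp).ne_zero
  apply Continuous.div_const
  apply Continuous.sub continuous_const
  apply Complex.continuous_re.comp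
  apply Continuous.mul continuous_const
  apply Complex.continuous_conj.comp
  apply Continuous.mul continuous_const
  apply Continuous.const_cpow _ (Or.inl hp0)
  fun_prop

/-- uniform divergence -/
private theorem unif (f : ℕ → ℂ) (hf : ∀ n, ‖f n‖ ≤ 1) {q : ℕ} (χ : DirichletCharacter ℂ q)
    (T B : ℝ) (hdiv : ∀ t ∈ Set.Icc (-T) T, ∃ x, B < distSq f (tw χ t) x) :
    ∃ x, ∀ t ∈ Set.Icc (-T) T, B < distSq f (tw χ t) x := by
  obtain ⟨X, hX⟩ := (isCompact_Icc (a := -T) (b := T)).elim_directed_cover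
    (fun x : ℕ => {t : ℝ | B < distSq f (tw χ t) x})
    (fun x => isOpen_lt continuous_const (cont_distSq' f χ x))
    (by
      intro t ht
      obtain ⟨x, hx⟩ := hdiv t ht
      exact Set.mem_iUnion.mpr ⟨x, hx⟩)
    (by
      intro x y
      refine ⟨max x y, ?_, ?_⟩
      · intro t ht
        exact lt_of_lt_of_le ht (distSq_mono f hf χ t (le_max_left _ _))
      · intro t ht
        exact lt_of_lt_of_le ht (distSq_mono f hf χ t (le_max_right _ _)))
  exact ⟨X, fun t ht => hX ht⟩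

/-- if `f = 1` at all primes `> x₁` then the distance to a nontrivial twisted character diverges -/
private theorem far_one (f : ℕ → ℂ) (hf : ∀ n, ‖f n‖ ≤ 1) {q : ℕ} [NeZero q] (χ : DirichletCharacter ℂ q)
    (t : ℝ) (ht : t ≠ 0 ∨ χ ≠ 1) (x₁ : ℕ) (h1 : ∀ p : ℕ, p.Prime → x₁ < p → f p = 1) (B : ℝ) :
    ∃ x, B < distSq f (tw χ t) x := by
  have ht' : -t ≠ 0 ∨ χ ≠ 1 := by
    rcases ht with h | h
    · exact Or.inl (neg_ne_zero.2 h)
    · exact Or.inr h
  obtain ⟨X, hX⟩ := S_unbdd χ ht' (B + 2 * (x₁ + 1))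
  refine ⟨X, ?_⟩
  have h2 : S χ (-t) X ≤ ∑ p ∈ (X + 1).primesBelow,
      ((1 - (f p * (starRingEnd ℂ) (tw χ t p)).re) / (p : ℝ) + if p < x₁ + 1 then 2 else 0) := by
    unfold S
    refine (Finset.sum_le_sum_of_subset_of_nonneg (t := (X + 1).primesBelow) ?_ ?_).trans ?_
    · intro p hp
      rw [Nat.mem_primesBelow] at hp ⊢
      exact ⟨by omega, hp.2⟩
    · intro p hp _
      exact term_nonneg χ _ p (Nat.prime_of_mem_primesBelow hp).pos
    · apply Finset.sum_le_sum
      intro p hp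
      have hpp := Nat.prime_of_mem_primesBelow hp
      have hp1 : (1 : ℝ) ≤ p := by exact_mod_cast hpp.one_lt.le
      split_ifs with hlt
      · have h3 := dist_term_nonneg f (tw χ t) p (hf p) (norm_tw χ t p hpp.pos)
        have h4 : (1 - (χ p * (p : ℂ) ^ (-((-t : ℝ) : ℂ) * I)).re) / (p : ℝ) ≤ 2 := by
          rw [div_le_iff₀ (by linarith)]
          have h5 := (abs_le.mp (Complex.abs_re_le_norm (χ p * (p : ℂ) ^ (-((-t : ℝ) : ℂ) * I)))).1
          have h6 := norm_char_cpow_le χ (-t) p hpp.pos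
          linarith
        linarith
      · rw [h1 p hpp (by omega), one_mul, Complex.conj_re, add_zero]
        unfold tw
        have e : (-((-t : ℝ) : ℂ) * I) = (t : ℂ) * I := by
          push_cast
          ring
        rw [e]
  rw [Finset.sum_add_distrib, ← Finset.sum_filter, Finset.sum_const, nsmul_eq_mul] at h2
  have h4 : ((((X + 1).primesBelow.filter (fun p => p < x₁ + 1)).card : ℕ) : ℝ) ≤ x₁ + 1 := by
    have h5 : (X + 1).primesBelow.filter (fun p => p < x₁ + 1) ⊆ Finset.range (x₁ + 1) := by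
      intro p hp
      rw [Finset.mem_filter] at hp
      exact Finset.mem_range.2 hp.2
    have h6 := Finset.card_le_card h5
    rw [Finset.card_range] at h6
    exact_mod_cast h6
  unfold distSq
  linarith

/-- if `f = w ≠ 1` on a long window of primes then the distance to the trivial character is large -/
private theorem far_b (f : ℕ → ℂ) (hf : ∀ n, ‖f n‖ ≤ 1) (q : ℕ) [NeZero q] (w : ℂ) (κ : ℝ)
    (hκ : κ = 1 - w.re) (hκ0 : 0 < κ) (P x₁ X₁ : ℕ) (hX : X₁ ≤ x₁)
    (h1 : ∀ p : ℕ, p.Prime → P ≤ p → p ≤ x₁ → f p = w) (B : ℝ)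
    (hB : (B + 1) / κ + (P + q + 1) ≤ ∑ p ∈ X₁.primesBelow, (1 : ℝ) / p) :
    B < distSq f (tw (1 : DirichletCharacter ℂ q) 0) x₁ := by
  have h2 : ∑ p ∈ X₁.primesBelow, κ * ((1 : ℝ) / p) ≤ ∑ p ∈ (x₁ + 1).primesBelow,
      ((1 - (f p * (starRingEnd ℂ) (tw (1 : DirichletCharacter ℂ q) 0 p)).re) / (p : ℝ)
        + if p < P + q + 1 then κ else 0) := by
    refine (Finset.sum_le_sum_of_subset_of_nonneg (t := (x₁ + 1).primesBelow) ?_ ?_).trans ?_
    · intro p hp
      rw [Nat.mem_primesBelow] at hp ⊢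
      exact ⟨by omega, hp.2⟩
    · intro p _ _
      positivity
    · apply Finset.sum_le_sum
      intro p hp
      rw [Nat.mem_primesBelow] at hp
      have hp1 : (1 : ℝ) ≤ p := by exact_mod_cast hp.2.one_lt.le
      have h3 := dist_term_nonneg f (tw (1 : DirichletCharacter ℂ q) 0) p (hf p) (norm_tw _ 0 p hp.2.pos)
      split_ifs with hlt
      · have h4 : (1 : ℝ) / p ≤ 1 := by
          rw [div_le_one (by linarith)]
          exact hp1
        nlinarith
      · have hcop : IsUnit ((p : ℕ) : ZMod q) := by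
          rw [ZMod.isUnit_iff_coprime]
          apply (hp.2.coprime_iff_not_dvd).2
          intro hdvd
          have := Nat.le_of_dvd (Nat.pos_of_ne_zero (NeZero.ne q)) hdvd
          omega
        have h5 : tw (1 : DirichletCharacter ℂ q) 0 p = 1 := by
          unfold tw
          rw [MulChar.one_apply hcop]
          simp
        rw [h5, h1 p hp.2 (by omega) (by omega), map_one, mul_one, add_zero, ← hκ, mul_one_div]
  rw [← Finset.mul_sum, Finset.sum_add_distrib, ← Finset.sum_filter, Finset.sum_const, nsmul_eq_mul] at h2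
  have h4 : ((((x₁ + 1).primesBelow.filter (fun p => p < P + q + 1)).card : ℕ) : ℝ) ≤ P + q + 1 := by
    have h5 : (x₁ + 1).primesBelow.filter (fun p => p < P + q + 1) ⊆ Finset.range (P + q + 1) := by
      intro p hp
      rw [Finset.mem_filter] at hp
      exact Finset.mem_range.2 hp.2
    have h6 := Finset.card_le_card h5
    rw [Finset.card_range] at h6
    exact_mod_cast h6
  have h5 := mul_le_mul_of_nonneg_left hB hκ0.le
  have h6 : κ * ((B + 1) / κ + ((P : ℝ) + q + 1)) = B + 1 + κ * (P + q + 1) := by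
    field_simp
  have h7 := mul_le_mul_of_nonneg_right h4 hκ0.le
  unfold distSq
  rw [h6] at h5
  linarith

/-- typical functions are far from `χ(n) n ^ (i t)`, uniformly for bounded `t` -/
theorem res_a {T : Type} [TopologicalSpace T] (c : T → Circle) (hc : Continuous c) (a b : T) (ha : c a = 1)
    (hb : c b ≠ 1) {q : ℕ} [NeZero q] (χ : DirichletCharacter ℂ q) (R B : ℝ) :
    ∀ᶠ ψ in residual (Nat.Primes → T), ∃ x, ∀ t ∈ Set.Icc (-R) R, B < distSq (fn (cmp c ψ)) (tw χ t) x := by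
  apply residual_of_dense_open
  · have hset : {ψ : Nat.Primes → T | ∃ x, ∀ t ∈ Set.Icc (-R) R, B < distSq (fn (cmp c ψ)) (tw χ t) x}
        = cmp c ⁻¹' ⋃ x : ℕ, {φ : Nat.Primes → Circle | ∀ t ∈ Set.Icc (-R) R, B < distSq (fn φ) (tw χ t) x} := by
      ext ψ
      simp only [Set.mem_ofPred_eq, Set.mem_iUnion, Set.mem_preimage]
    rw [hset]
    apply IsOpen.preimage (cont_cmp c hc)
    apply isOpen_iUnion
    intro x
    rw [isOpen_iff_eventually]
    intro φ hφ
    refine isCompact_Icc.eventually_forall_of_forall_eventually ?_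
    intro t ht
    have h1 := (isOpen_lt (continuous_const (y := B)) (cont_distSq χ x)).mem_nhds
      (show (φ, t) ∈ {z : (Nat.Primes → Circle) × ℝ | B < distSq (fn z.1) (tw χ z.2) x} from hφ t ht)
    exact h1
  · apply dense_of
    intro ψ₀ P
    obtain ⟨κ, hκ⟩ : ∃ κ : ℝ, κ = 1 - (c b : ℂ).re := ⟨_, rfl⟩
    have hκ0 : 0 < κ := by
      have := re_lt_one (c b) hb
      linarith
    obtain ⟨X₁, hX₁⟩ := exists_prime_sum_ge ((B + 1) / κ + (P + q + 1))
    obtain ⟨x₁, hxd⟩ : ∃ x, x = max X₁ P := ⟨_, rfl⟩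
    have hxX : X₁ ≤ x₁ := by rw [hxd]; exact le_max_left _ _
    have hxP : P ≤ x₁ := by rw [hxd]; exact le_max_right _ _
    obtain ⟨ψ, hψ1, hψ2, hψ3⟩ := two_phase c a b ha ψ₀ P x₁ hxP
    have hf : ∀ n, ‖fn (cmp c ψ) n‖ ≤ 1 := fun n => (norm_fn _ n).le
    refine ⟨ψ, ?_, hψ1⟩
    show ∃ x, ∀ t ∈ Set.Icc (-R) R, B < distSq (fn (cmp c ψ)) (tw χ t) x
    refine unif _ hf χ R B fun t _ => ?_
    by_cases h : t = 0 ∧ χ = 1
    · obtain ⟨rfl, rfl⟩ := h
      exact ⟨x₁, far_b _ hf q (c b) κ hκ hκ0 P x₁ X₁ hxX hψ2 B hX₁⟩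
    · refine far_one _ hf χ t ?_ x₁ hψ3 B
      by_cases h0 : t = 0
      · exact Or.inr fun h1 => h ⟨h0, h1⟩
      · exact Or.inl h0

/-- typical functions are non-pretentious -/
theorem res_np {T : Type} [TopologicalSpace T] (c : T → Circle) (hc : Continuous c) (a b : T) (ha : c a = 1)
    (hb : c b ≠ 1) : ∀ᶠ ψ in residual (Nat.Primes → T), NonPretentious (fn (cmp c ψ)) := by
  have h1 : ∀ᶠ ψ in residual (Nat.Primes → T), ∀ (q : ℕ), ∀ _ : NeZero q, ∀ (χ : DirichletCharacter ℂ q)
      (R B : ℕ), ∃ x, ∀ t ∈ Set.Icc (-(R : ℝ)) R, (B : ℝ) < distSq (fn (cmp c ψ)) (tw χ t) x := by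
    rw [eventually_countable_forall]
    intro q
    by_cases hq : q = 0
    · exact Filter.Eventually.of_forall fun φ hne => absurd hq hne.out
    · have : NeZero q := ⟨hq⟩
      have h2 : ∀ᶠ ψ in residual (Nat.Primes → T), ∀ (χ : DirichletCharacter ℂ q)
          (R B : ℕ), ∃ x, ∀ t ∈ Set.Icc (-(R : ℝ)) R, (B : ℝ) < distSq (fn (cmp c ψ)) (tw χ t) x := by
        rw [eventually_countable_forall]
        intro χ
        rw [eventually_countable_forall]
        intro R
        rw [eventually_countable_forall]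
        intro B
        exact res_a c hc a b ha hb χ R B
      filter_upwards [h2] with ψ hψ _
      exact hψ
  filter_upwards [h1] with ψ hψ
  intro q hq χ t
  have hf : ∀ n, ‖fn (cmp c ψ) n‖ ≤ 1 := fun n => (norm_fn _ n).le
  show Tendsto (distSq (fn (cmp c ψ)) (tw χ t)) atTop atTop
  rw [tendsto_atTop]
  intro b
  obtain ⟨R, hR⟩ := exists_nat_ge |t|
  obtain ⟨B, hB⟩ := exists_nat_ge b
  obtain ⟨x, hx⟩ := hψ q hq χ R B
  filter_upwards [eventually_ge_atTop x] with y hy
  have h2 := hx t ⟨by have := neg_abs_le t; linarith, by have := le_abs_self t; linarith⟩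
  exact hB.trans (h2.le.trans (distSq_mono _ hf χ t hy))

end Pool.Agent.H1.TF
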