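import Mathlib
import Pool.Agent.H1.TF.GW

/-!
MP_050d88_nt, typical functions: the sets of good and of bad scales.
-/

set_option autoImplicit false

namespace Pool.Agent.H1.TF

open Complex Filter Topology Pool.Agent.H1.Ell

private theorem uld_aux (X : Set ℕ) :
    (∀ y : ℕ, 0 ≤ (∑ n ∈ Finset.Icc 1 y, X.indicator (fun n => 1 / (n : ℝ)) n) / Real.log y) ∧
    (∀ y : ℕ, (∑ n ∈ Finset.Icc 1 y, X.indicator (fun n => 1 / (n : ℝ)) n) / Real.log y
      ≤ (1 + Real.log y) / Real.log y) := by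
  have hnn : ∀ n : ℕ, 0 ≤ X.indicator (fun n => 1 / (n : ℝ)) n := fun n =>
    Set.indicator_nonneg (fun n _ => by positivity) n
  refine ⟨fun y => div_nonneg (Finset.sum_nonneg fun n _ => hnn n) (Real.log_natCast_nonneg y), fun y => ?_⟩
  refine div_le_div_of_nonneg_right ?_ (Real.log_natCast_nonneg y)
  refine le_trans (Finset.sum_le_sum fun n _ => ?_) (Pool.H2.EL.harm_up y)
  exact Set.indicator_le_self' (fun _ _ => by positivity) n

private theorem tend_one : Tendsto (fun y : ℕ => (1 + Real.log y) / Real.log y) atTop (𝓝 1) := by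
  have hlog : Tendsto (fun y : ℕ => Real.log y) atTop atTop :=
    Real.tendsto_log_atTop.comp tendsto_natCast_atTop_atTop
  have h1 : Tendsto (fun y : ℕ => (Real.log y)⁻¹ + 1) atTop (𝓝 (0 + 1)) :=
    (tendsto_inv_atTop_zero.comp hlog).add_const 1
  rw [zero_add] at h1
  refine h1.congr' ?_
  filter_upwards [eventually_ge_atTop 2] with y hy
  have : 0 < Real.log y := Real.log_pos (by exact_mod_cast hy)
  field_simp

private theorem uld_one_of (X Y : Set ℕ) (hXY : X ⊆ Y) (hX : Pool.H2.EL.uld X = 1) : Pool.H2.EL.uld Y = 1 := by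
  have hv := tend_one
  have hbX : IsCoboundedUnder (· ≤ ·) atTop (fun y : ℕ =>
      (∑ n ∈ Finset.Icc 1 y, X.indicator (fun n => 1 / (n : ℝ)) n) / Real.log y) :=
    IsBoundedUnder.isCoboundedUnder_le (isBoundedUnder_of ⟨0, (uld_aux X).1⟩)
  have hcY : IsCoboundedUnder (· ≤ ·) atTop (fun y : ℕ =>
      (∑ n ∈ Finset.Icc 1 y, Y.indicator (fun n => 1 / (n : ℝ)) n) / Real.log y) :=
    IsBoundedUnder.isCoboundedUnder_le (isBoundedUnder_of ⟨0, (uld_aux Y).1⟩)
  have hbY : IsBoundedUnder (· ≤ ·) atTop (fun y : ℕ =>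
      (∑ n ∈ Finset.Icc 1 y, Y.indicator (fun n => 1 / (n : ℝ)) n) / Real.log y) :=
    hv.isBoundedUnder_le.mono_le (Eventually.of_forall (uld_aux Y).2)
  apply le_antisymm
  · calc Pool.H2.EL.uld Y ≤ limsup (fun y : ℕ => (1 + Real.log y) / Real.log y) atTop :=
        limsup_le_limsup (Eventually.of_forall (uld_aux Y).2) hcY hv.isBoundedUnder_le
      _ = 1 := hv.limsup_eq
  · rw [← hX]
    refine limsup_le_limsup (Eventually.of_forall fun y => ?_) hbX hbY
    refine div_le_div_of_nonneg_right (Finset.sum_le_sum fun n _ => ?_) (Real.log_natCast_nonneg y)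
    exact Set.indicator_le_indicator_of_subset hXY (fun _ => by positivity) n

/-- the set of good scales -/
theorem good_set (Φ : ℕ → ℕ) (hΦ : ∀ y, y ^ y ≤ Φ y) (X : ℕ → Set ℕ) (φ : Nat.Primes → Circle)
    (h : ∀ i j : ℕ, ∃ y ∈ X i, j + 2 ≤ y ∧ ∃ x, 1 ≤ x ∧ x ^ (j + 1) ≤ y ∧
      d1 (fn φ) (Φ y) - d1 (fn φ) x < 1 / ((j : ℝ) + 1) ∧ (j : ℝ) < d1 (fn φ) x) :
    ∃ Y : Set ℕ, Pool.H2.EL.uld Y = 1 ∧ Pool.H2.EL.AllOn Y (fn φ) ∧
      ∀ i N : ℕ, ∃ y ∈ X i, N ≤ y ∧ Set.Icc y (Φ y) ⊆ Y := by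
  classical
  choose y hyX hy2 x hx1 hxy hsm hbig using h
  have hf : Pool.Agent.H4.El.IsMult (fn φ) := by
    refine ⟨?_, fun m n hm hn _ => fn_mul φ m n hm hn, fun n _ => (norm_fn φ n).le⟩
    rw [fn_eq]
    exact mk_one _
  refine ⟨{n | ∃ j, ∃ i ≤ j, y i j ≤ n ∧ n ≤ Φ (y i j)}, ?_, ?_, ?_⟩
  · have htop : Tendsto (fun j => y 0 j) atTop atTop :=
      tendsto_atTop_mono (fun j => (by have := hy2 0 j; omega : j ≤ y 0 j)) tendsto_id
    refine uld_one_of {n | ∃ j, y 0 j ^ 1 ≤ n ∧ n ≤ y 0 j ^ y 0 j} _ ?_ ?_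
    · rintro n ⟨j, h1, h2⟩
      exact ⟨j, 0, Nat.zero_le _, by rwa [pow_one] at h1, h2.trans (hΦ _)⟩
    · refine Pool.H2.EL.uld_one (fun j => y 0 j) (fun j => y 0 j) (fun _ => 1)
        (fun j => by have := hy2 0 j; omega) (fun j => by have := hy2 0 j; omega) ?_ htop
      have h3 : Tendsto (fun z : ℕ => 1 / (z : ℝ)) atTop (𝓝 0) :=
        tendsto_const_nhds.div_atTop tendsto_natCast_atTop_atTop
      have h4 := h3.comp htop
      refine h4.congr fun j => ?_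
      simp only [Function.comp, Nat.cast_one]
  · intro k h hne ε hε
    obtain ⟨α, D, X₀, hα, hG⟩ := good_scales (fn φ) hf k h hne ε hε
    obtain ⟨J, hJ⟩ := exists_nat_ge (max (1 / α) D)
    refine ⟨max X₀ (1 + ∑ j ∈ Finset.range J, ∑ i ∈ Finset.range (j + 1), Φ (y i j)), ?_⟩
    rintro N ⟨j, i, hij, hj1, hj2⟩ hN F hF0 hF
    have hJj : J ≤ j := by
      by_contra hc
      push Not at hc
      have h1 : Φ (y i j) ≤ ∑ i ∈ Finset.range (j + 1), Φ (y i j) :=
        Finset.single_le_sum (f := fun i => Φ (y i j)) (fun _ _ => Nat.zero_le _)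
          (Finset.mem_range.2 (by omega))
      have h2 : ∑ i ∈ Finset.range (j + 1), Φ (y i j)
          ≤ ∑ j ∈ Finset.range J, ∑ i ∈ Finset.range (j + 1), Φ (y i j) :=
        Finset.single_le_sum (f := fun j => ∑ i ∈ Finset.range (j + 1), Φ (y i j))
          (fun _ _ => Nat.zero_le _) (Finset.mem_range.2 hc)
      have h3 := (le_max_right _ _).trans hN
      omega
    have hJr : max (1 / α) D ≤ (j : ℝ) := by
      have : (J : ℝ) ≤ j := by exact_mod_cast hJj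
      linarith
    have hj1α : 1 / α ≤ (j : ℝ) := (le_max_left _ _).trans hJr
    have hjD : D ≤ (j : ℝ) := (le_max_right _ _).trans hJr
    have hjα : 1 ≤ α * (j : ℝ) := by
      rw [div_le_iff₀ hα] at hj1α
      linarith
    have hηα : 1 / ((j : ℝ) + 1) ≤ α := by
      rw [div_le_iff₀ (by positivity)]
      linarith
    have hxpow : x i j ^ (j + 1) ≤ N := (hxy i j).trans hj1
    have hxN : x i j ≤ N := (Nat.le_self_pow (by omega) _).trans hxpow
    have hxr : (1 : ℝ) ≤ x i j := by exact_mod_cast hx1 i j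
    have hxα : (x i j : ℝ) ≤ (N : ℝ) ^ α := by
      have h1 : ((x i j ^ (j + 1) : ℕ) : ℝ) ≤ N := by exact_mod_cast hxpow
      calc (x i j : ℝ) = (x i j : ℝ) ^ (1 : ℝ) := (Real.rpow_one _).symm
        _ ≤ (x i j : ℝ) ^ (((j + 1 : ℕ) : ℝ) * α) := by
          apply Real.rpow_le_rpow_of_exponent_le hxr
          push_cast
          linarith
        _ = ((x i j ^ (j + 1) : ℕ) : ℝ) ^ α := by
          rw [Real.rpow_mul (by positivity), Real.rpow_natCast]
          push_cast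
          rfl
        _ ≤ (N : ℝ) ^ α := Real.rpow_le_rpow (by positivity) h1 hα.le
    exact hG N ((le_max_left _ _).trans hN) (x i j) (Φ (y i j)) hxα hxN hj2
      ((hsm i j).le.trans hηα) (hjD.trans (hbig i j).le) F hF0 hF
  · intro i N
    refine ⟨y i (max i N), hyX _ _, ?_, ?_⟩
    · have h1 := hy2 i (max i N)
      have h2 := le_max_right i N
      omega
    · intro n hn
      exact ⟨max i N, i, le_max_left _ _, hn.1, hn.2⟩

private theorem lower_of_miss (Z : Set ℕ) (h : ∀ a : ℕ, ∃ y, a ≤ y ∧ ∀ n ∈ Z, y ≤ n → n ≤ 2 ^ y → False) :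
    lowerLogDensity Z = 0 := by
  refine lower_zero Z (fun ε hε => ?_)
  have hlim : Tendsto (fun y : ℕ => (1 + Real.log y) / (y * Real.log 2)) atTop (𝓝 0) := by
    have h1 : Tendsto (fun z : ℝ => Real.log z / z) atTop (𝓝 0) :=
      Real.isLittleO_log_id_atTop.tendsto_div_nhds_zero
    have h2 := h1.comp tendsto_natCast_atTop_atTop
    have h3 : Tendsto (fun z : ℕ => 1 / (z : ℝ)) atTop (𝓝 0) :=
      tendsto_const_nhds.div_atTop tendsto_natCast_atTop_atTop
    have h4 := (h3.add h2).mul_const (1 / Real.log 2)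
    simp only [add_zero, zero_mul] at h4
    refine h4.congr (fun z => ?_)
    simp only [Function.comp]
    rcases Nat.eq_zero_or_pos z with h | h
    · subst h; simp
    · have h5 : (z : ℝ) ≠ 0 := by exact_mod_cast h.ne'
      have h6 : Real.log 2 ≠ 0 := (Real.log_pos (by norm_num)).ne'
      field_simp
  have hev := hlim.eventually (gt_mem_nhds hε)
  obtain ⟨M, hM⟩ := hev.exists_forall_of_atTop
  rw [Filter.frequently_atTop]
  intro a
  obtain ⟨y, hy, hmiss⟩ := h (max (max a M) 1)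
  have hya : a ≤ y := ((le_max_left _ _).trans (le_max_left _ _)).trans hy
  have hyM : M ≤ y := ((le_max_right _ _).trans (le_max_left _ _)).trans hy
  have hy1 : 1 ≤ y := (le_max_right _ _).trans hy
  have hlt : y < 2 ^ y := Nat.lt_two_pow_self
  refine ⟨2 ^ y, by omega, ?_⟩
  have hsum : ∑ n ∈ Finset.Icc 1 (2 ^ y), Z.indicator (fun n => 1 / (n : ℝ)) n
      ≤ ∑ n ∈ Finset.Icc 1 y, 1 / (n : ℝ) := by
    have h1 : ∑ n ∈ Finset.Icc 1 (2 ^ y), Z.indicator (fun n => 1 / (n : ℝ)) n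
        = ∑ n ∈ Finset.Icc 1 y, Z.indicator (fun n => 1 / (n : ℝ)) n := by
      symm
      apply Finset.sum_subset
      · intro n hn
        rw [Finset.mem_Icc] at hn ⊢
        omega
      · intro n hn hn'
        rw [Finset.mem_Icc] at hn hn'
        apply Set.indicator_of_notMem
        intro hX
        exact hmiss n hX (by omega) hn.2
    rw [h1]
    exact sum_ind_le Z y
  have h5 := hsum.trans (sum_inv_le y)
  have h6 := (hM y hyM).le
  have hlog2 : 0 < Real.log 2 := Real.log_pos (by norm_num)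
  have hyR : (0 : ℝ) < y := by exact_mod_cast (by omega : 0 < y)
  have e : Real.log ((2 ^ y : ℕ) : ℝ) = y * Real.log 2 := by
    push_cast
    rw [Real.log_pow]
  rw [e]
  refine le_trans ?_ h6
  apply div_le_div_of_nonneg_right h5
  positivity

/-- the set of bad scales -/
theorem bad_set (Φ : ℕ → ℕ) (hΦ : ∀ y, 2 ^ y ≤ Φ y) (X : ℕ → Set ℕ) (φ : Nat.Primes → Circle)
    (h : ∀ i H : ℕ, ∃ y ∈ X i, H ≤ y ∧ ∀ x, y ≤ x → x ≤ Φ y →
      ∀ h₁ ≤ H, ∀ h₂ ≤ H, ‖cr (fn φ) h₁ h₂ x - 1‖ < 1 / 2)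
    (Z : Set ℕ) (h₁ h₂ : ℕ) (hZ : Tendsto (cr (fn φ) h₁ h₂) (atTop ⊓ 𝓟 Z) (𝓝 0)) :
    lowerLogDensity Z = 0 ∧ ∀ i N : ℕ, ∃ y ∈ X i, N ≤ y ∧ Disjoint (Set.Icc y (Φ y)) Z := by
  have h4 := (tendsto_zero_iff_norm_tendsto_zero.1 hZ).eventually (gt_mem_nhds (show (0 : ℝ) < 1 / 2 by norm_num))
  rw [Filter.eventually_inf_principal] at h4
  obtain ⟨N₀, hN₀⟩ := h4.exists_forall_of_atTop
  have hmain : ∀ i N : ℕ, ∃ y ∈ X i, N ≤ y ∧ ∀ n ∈ Z, y ≤ n → n ≤ Φ y → False := by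
    intro i N
    obtain ⟨y, hy, hH, hx⟩ := h i (max (max N N₀) (max h₁ h₂))
    refine ⟨y, hy, ((le_max_left _ _).trans (le_max_left _ _)).trans hH, fun n hn hn1 hn2 => ?_⟩
    have h5 := hx n hn1 hn2 h₁ ((le_max_left _ _).trans (le_max_right _ _)) h₂
      ((le_max_right _ _).trans (le_max_right _ _))
    have h6 := hN₀ n ((((le_max_right _ _).trans (le_max_left _ _)).trans hH).trans hn1) hn
    have h7 : ‖(1 : ℂ)‖ ≤ ‖cr (fn φ) h₁ h₂ n‖ + ‖cr (fn φ) h₁ h₂ n - 1‖ := by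
      have h8 : (1 : ℂ) = cr (fn φ) h₁ h₂ n - (cr (fn φ) h₁ h₂ n - 1) := by ring
      calc ‖(1 : ℂ)‖ = ‖cr (fn φ) h₁ h₂ n - (cr (fn φ) h₁ h₂ n - 1)‖ := by rw [← h8]
        _ ≤ _ := norm_sub_le _ _
    rw [norm_one] at h7
    linarith
  constructor
  · refine lower_of_miss Z fun a => ?_
    obtain ⟨y, _, hy, hm⟩ := hmain 0 a
    exact ⟨y, hy, fun n hn h1 h2 => hm n hn h1 (h2.trans (hΦ y))⟩
  · intro i N
    obtain ⟨y, hyX, hy, hm⟩ := hmain i N
    refine ⟨y, hyX, hy, ?_⟩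
    rw [Set.disjoint_left]
    intro n hn hnZ
    exact hm n hnZ hn.1 hn.2

end Pool.Agent.H1.TF
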