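import Mathlib
import Pool.Agent.H1.TF.Top

/-!
MP_050d88_nt, typical functions: universality.
-/

set_option autoImplicit false

namespace Pool.Agent.H1.TF

open Complex Filter Topology Pool.Agent.H1.Ell

private theorem mk_mul_conj (φ γ : Nat.Primes → Circle) (n : ℕ) :
    Ell.mk (fun p => gv φ p * (starRingEnd ℂ) (gv γ p)) n = fn φ n * (starRingEnd ℂ) (fn γ n) := by
  unfold Ell.mk fn Finsupp.prod
  rw [map_prod, ← Finset.prod_mul_distrib]
  refine Finset.prod_congr rfl fun p _ => ?_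
  beta_reduce
  rw [mul_pow, map_pow]

private theorem diff_eq (a b z : ℂ) (hb : ‖b‖ = 1) : ‖a - b * z‖ = ‖a * (starRingEnd ℂ) b - z‖ := by
  have h1 : b * (starRingEnd ℂ) b = 1 := by
    rw [Complex.mul_conj, Complex.normSq_eq_norm_sq, hb]
    norm_num
  have h2 : a - b * z = b * (a * (starRingEnd ℂ) b - z) := by
    have : b * (a * (starRingEnd ℂ) b - z) = a * (b * (starRingEnd ℂ) b) - b * z := by ring
    rw [this, h1, mul_one]
  rw [h2, norm_mul, hb, one_mul]

/-- the deviation of `φ` from `γ · n ^ (i t)` up to `x` -/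
noncomputable def dev (φ γ : Nat.Primes → Circle) (t : ℝ) (x : ℕ) : ℝ :=
  ∑ n ∈ Finset.Icc 1 x, ‖fn φ n - fn γ n * (n : ℂ) ^ ((t : ℂ) * I)‖

private theorem cont_dev (γ : Nat.Primes → Circle) (t : ℝ) (x : ℕ) :
    Continuous (fun φ : Nat.Primes → Circle => dev φ γ t x) := by
  unfold dev
  exact continuous_finsetSum _ fun n _ => ((cont_fn n).sub continuous_const).norm

/-- universality: on long windows of scales which begin in `X` a typical function is close to a twist
of `γ` -/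
theorem res_u {T : Type} [TopologicalSpace T] (c : T → Circle) (hc : Continuous c) (hs : Function.Surjective c)
    (Φ : ℕ → ℕ) (X : Set ℕ) (hX : X.Infinite) (γ : Nat.Primes → Circle) (H : ℕ) (ε : ℝ)
    (hε : 0 < ε) :
    ∀ᶠ ψ in residual (Nat.Primes → T), ∃ y ∈ X, H ≤ y ∧ ∃ t : ℝ, (H : ℝ) ≤ t ∧ t ≤ Real.log y ∧
      ∀ x, y ≤ x → x ≤ Φ y → dev (cmp c ψ) γ t x < ε * x := by
  apply residual_of_dense_open
  · have hset : {ψ : Nat.Primes → T | ∃ y ∈ X, H ≤ y ∧ ∃ t : ℝ, (H : ℝ) ≤ t ∧ t ≤ Real.log y ∧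
        ∀ x, y ≤ x → x ≤ Φ y → dev (cmp c ψ) γ t x < ε * x}
        = ⋃ y ∈ {y | y ∈ X ∧ H ≤ y}, ⋃ t ∈ {t : ℝ | (H : ℝ) ≤ t ∧ t ≤ Real.log y},
          ⋂ x ∈ Finset.Icc y (Φ y), {ψ : Nat.Primes → T | dev (cmp c ψ) γ t x < ε * x} := by
      ext ψ
      simp only [Set.mem_ofPred_eq, Set.mem_iUnion, Set.mem_iInter, exists_prop, Finset.mem_Icc]
      constructor
      · rintro ⟨y, hy, hH, t, ht1, ht2, h⟩
        exact ⟨y, ⟨hy, hH⟩, t, ⟨ht1, ht2⟩, fun x hx => h x hx.1 hx.2⟩
      · rintro ⟨y, ⟨hy, hH⟩, t, ⟨ht1, ht2⟩, h⟩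
        exact ⟨y, hy, hH, t, ht1, ht2, fun x hx1 hx2 => h x ⟨hx1, hx2⟩⟩
    rw [hset]
    apply isOpen_biUnion
    intro y _
    apply isOpen_biUnion
    intro t _
    apply isOpen_biInter_finset
    intro x _
    exact isOpen_lt ((cont_dev γ t x).comp (cont_cmp c hc)) continuous_const
  · apply dense_of
    intro ψ₀ P
    obtain ⟨t, ht, hnear⟩ := kron_primes (fun p => gv (cmp c ψ₀) p * (starRingEnd ℂ) (gv γ p))
      (fun p _ => by rw [norm_mul, Complex.norm_conj, norm_gv, norm_gv, one_mul]) P (ε / 2 / (P + 1))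
      (by positivity) H
    obtain ⟨ψ, hψ1, hψ2⟩ : ∃ ψ : Nat.Primes → T, (∀ p : Nat.Primes, (p : ℕ) < P → ψ p = ψ₀ p) ∧
        (∀ p : ℕ, p.Prime → P ≤ p → gv (cmp c ψ) p = gv γ p * (p : ℂ) ^ ((t : ℂ) * I)) := by
      refine ⟨fun p => if (p : ℕ) < P then ψ₀ p else (hs (γ p * Circle.exp (t * Real.log (p : ℕ)))).choose,
        fun p hp => if_pos hp, ?_⟩
      intro p hp hPp
      have hpC : (p : ℂ) ≠ 0 := by exact_mod_cast hp.ne_zero
      rw [gv_prime _ p hp, gv_prime γ p hp]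
      unfold cmp
      simp only
      rw [if_neg (by omega), (hs (γ ⟨p, hp⟩ * Circle.exp (t * Real.log (p : ℕ)))).choose_spec,
        Circle.coe_mul, Circle.coe_exp, Complex.cpow_def_of_ne_zero hpC, ← Complex.natCast_log]
      congr 2
      push_cast
      ring
    have hg1 : ∀ p : ℕ, p.Prime → ‖gv (cmp c ψ) p * (starRingEnd ℂ) (gv γ p)‖ = 1 := fun p _ => by
      rw [norm_mul, Complex.norm_conj, norm_gv, norm_gv, one_mul]
    have hsum : ∀ Z : ℕ, ∑ p ∈ (Z + 1).primesBelow,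
        ‖gv (cmp c ψ) p * (starRingEnd ℂ) (gv γ p) - (p : ℂ) ^ ((t : ℂ) * I)‖ ≤ ε / 2 := by
      intro Z
      have h1 : ∀ p ∈ (Z + 1).primesBelow,
          ‖gv (cmp c ψ) p * (starRingEnd ℂ) (gv γ p) - (p : ℂ) ^ ((t : ℂ) * I)‖
          ≤ if p < P then ε / 2 / (P + 1) else 0 := by
        intro p hp
        have hpp := Nat.prime_of_mem_primesBelow hp
        split_ifs with hlt
        · have h2 := hnear p hlt hpp
          have h3 : gv (cmp c ψ) p = gv (cmp c ψ₀) p := by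
            rw [gv_prime _ p hpp, gv_prime _ p hpp]
            unfold cmp
            rw [hψ1 ⟨p, hpp⟩ hlt]
          rw [h3]
          exact h2
        · rw [← diff_eq _ _ _ (norm_gv γ p), hψ2 p hpp (by omega), sub_self, norm_zero]
      refine (Finset.sum_le_sum h1).trans ?_
      rw [← Finset.sum_filter, Finset.sum_const, nsmul_eq_mul]
      have h2 : ((((Z + 1).primesBelow.filter (fun p => p < P)).card : ℕ) : ℝ) ≤ P := by
        have h3 : (Z + 1).primesBelow.filter (fun p => p < P) ⊆ Finset.range P := by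
          intro p hp
          rw [Finset.mem_filter] at hp
          exact Finset.mem_range.2 hp.2
        have h4 := Finset.card_le_card h3
        rw [Finset.card_range] at h4
        exact_mod_cast h4
      calc ((((Z + 1).primesBelow.filter (fun p => p < P)).card : ℕ) : ℝ) * (ε / 2 / (P + 1))
          ≤ P * (ε / 2 / (P + 1)) := mul_le_mul_of_nonneg_right h2 (by positivity)
        _ ≤ ε / 2 := by
          rw [mul_div_assoc', div_le_iff₀ (by positivity)]
          nlinarith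
    obtain ⟨m, hm⟩ := exists_nat_ge (Real.exp t)
    obtain ⟨y, hy, hy2⟩ := hX.exists_gt (max m H)
    have hym : m < y := lt_of_le_of_lt (le_max_left _ _) hy2
    have hy0 : (0 : ℝ) < y := by exact_mod_cast (by omega : 0 < y)
    refine ⟨ψ, ⟨y, hy, (le_max_right _ _).trans hy2.le, t, ht, ?_, fun x hx _ => ?_⟩, hψ1⟩
    · rw [Real.le_log_iff_exp_le hy0]
      exact hm.trans (by exact_mod_cast hym.le)
    · have hx0 : (0 : ℝ) < x := by exact_mod_cast (by omega : 0 < x)
      have h1 := sum_mk_approx (fun p => gv (cmp c ψ) p * (starRingEnd ℂ) (gv γ p)) hg1 t x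
      have h2 : dev (cmp c ψ) γ t x = ∑ n ∈ Finset.Icc 1 x,
          ‖Ell.mk (fun p => gv (cmp c ψ) p * (starRingEnd ℂ) (gv γ p)) n - (n : ℂ) ^ ((t : ℂ) * I)‖ := by
        unfold dev
        refine Finset.sum_congr rfl fun n _ => ?_
        rw [mk_mul_conj, diff_eq _ _ _ (norm_fn γ n)]
      rw [h2]
      refine lt_of_le_of_lt h1 ?_
      have h3 := mul_le_mul_of_nonneg_left (hsum x) hx0.le
      nlinarith

end Pool.Agent.H1.TF
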