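import Mathlib
import Pool.Agent.H1.TF.Uni
import Pool.Agent.H1.TF.NP
import Pool.Agent.H1.TF.Sets

/-!
MP_050d88_nt, typical functions: the final theorem.
-/

set_option autoImplicit false

namespace Pool.Agent.H1.TF

open Complex Filter Topology Pool.Agent.H1.Ell

theorem typical (Φ : ℕ → ℕ) (X : ℕ → Set ℕ) (hX : ∀ i, (X i).Infinite) (γ : ℕ → Nat.Primes → Circle)
    (S : Set Circle) (hS : IsClosed S) (h1 : (1 : Circle) ∈ S) (h2 : S ≠ {1}) :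
    ∃ G : Set (Nat.Primes → S), IsGδ G ∧ Dense G ∧ ∀ ψ ∈ G,
      NonPretentious (fn (cmp Subtype.val ψ)) ∧
      (∃ Y : Set ℕ, Pool.H2.EL.uld Y = 1 ∧ Pool.H2.EL.AllOn Y (fn (cmp Subtype.val ψ)) ∧
        ∀ i N : ℕ, ∃ y ∈ X i, N ≤ y ∧ Set.Icc y (Φ y) ⊆ Y) ∧
      (S = Set.univ →
        (∀ i m H : ℕ, ∀ ε : ℝ, 0 < ε → ∃ y ∈ X i, H ≤ y ∧ ∃ t : ℝ, (H : ℝ) ≤ t ∧ t ≤ Real.log y ∧
          ∀ x, y ≤ x → x ≤ Φ y → dev (cmp Subtype.val ψ) (γ m) t x ≤ ε * x) ∧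
        (∀ (Z : Set ℕ) (h₁ h₂ : ℕ), Tendsto (cr (fn (cmp Subtype.val ψ)) h₁ h₂) (atTop ⊓ 𝓟 Z) (𝓝 0) →
          lowerLogDensity Z = 0 ∧ ∀ i N : ℕ, ∃ y ∈ X i, N ≤ y ∧ Disjoint (Set.Icc y (Φ y)) Z)) := by
  classical
  have : CompactSpace S := isCompact_iff_compactSpace.1 hS.isCompact
  obtain ⟨b, hbS, hb⟩ : ∃ b ∈ S, b ≠ 1 := by
    by_contra hcon
    push Not at hcon
    apply h2
    ext z
    constructor
    · intro hz
      exact hcon z hz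
    · intro hz
      rw [Set.mem_singleton_iff] at hz
      rw [hz]
      exact h1
  obtain ⟨Φ', hΦ'⟩ : ∃ Φ' : ℕ → ℕ, Φ' = fun y => max (Φ y) (y ^ y + 2 ^ y) := ⟨_, rfl⟩
  have hΦ1 : ∀ y, Φ y ≤ Φ' y := fun y => by rw [hΦ']; exact le_max_left _ _
  have hΦ2 : ∀ y, y ^ y ≤ Φ' y := fun y => by
    rw [hΦ']
    exact (Nat.le_add_right _ _).trans (le_max_right _ _)
  have hΦ3 : ∀ y, 2 ^ y ≤ Φ' y := fun y => by
    rw [hΦ']
    exact (Nat.le_add_left _ _).trans (le_max_right _ _)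
  have hc : Continuous (Subtype.val : S → Circle) := continuous_subtype_val
  have e1 := res_np (Subtype.val : S → Circle) hc ⟨1, h1⟩ ⟨b, hbS⟩ rfl hb
  have e2 : ∀ᶠ ψ in residual (Nat.Primes → S), ∀ i j : ℕ, ∃ y ∈ X i, j + 2 ≤ y ∧ ∃ x, 1 ≤ x ∧
      x ^ (j + 1) ≤ y ∧ d1 (fn (cmp Subtype.val ψ)) (Φ' y) - d1 (fn (cmp Subtype.val ψ)) x < 1 / ((j : ℝ) + 1) ∧
      (j : ℝ) < d1 (fn (cmp Subtype.val ψ)) x := by
    rw [eventually_countable_forall]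
    intro i
    rw [eventually_countable_forall]
    intro j
    exact res_w (Subtype.val : S → Circle) hc ⟨1, h1⟩ ⟨b, hbS⟩ rfl hb Φ' (X i) (hX i) j
  have e3 : ∀ᶠ ψ in residual (Nat.Primes → S), S = Set.univ → ∀ i m H k : ℕ, ∃ y ∈ X i, H ≤ y ∧
      ∃ t : ℝ, (H : ℝ) ≤ t ∧ t ≤ Real.log y ∧
        ∀ x, y ≤ x → x ≤ Φ' y → dev (cmp Subtype.val ψ) (γ m) t x < (1 / ((k : ℝ) + 1)) * x := by
    by_cases hu : S = Set.univ
    · have hs : Function.Surjective (Subtype.val : S → Circle) := fun z => ⟨⟨z, by rw [hu]; trivial⟩, rfl⟩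
      have h3 : ∀ᶠ ψ in residual (Nat.Primes → S), ∀ i m H k : ℕ, ∃ y ∈ X i, H ≤ y ∧
          ∃ t : ℝ, (H : ℝ) ≤ t ∧ t ≤ Real.log y ∧
            ∀ x, y ≤ x → x ≤ Φ' y → dev (cmp Subtype.val ψ) (γ m) t x < (1 / ((k : ℝ) + 1)) * x := by
        rw [eventually_countable_forall]
        intro i
        rw [eventually_countable_forall]
        intro m
        rw [eventually_countable_forall]
        intro H
        rw [eventually_countable_forall]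
        intro k
        exact res_u (Subtype.val : S → Circle) hc hs Φ' (X i) (hX i) (γ m) H (1 / ((k : ℝ) + 1)) (by positivity)
      filter_upwards [h3] with ψ hψ _
      exact hψ
    · exact Filter.Eventually.of_forall fun ψ h => absurd h hu
  have e4 : ∀ᶠ ψ in residual (Nat.Primes → S), S = Set.univ → ∀ i H : ℕ, ∃ y ∈ X i, H ≤ y ∧
      ∀ x, y ≤ x → x ≤ Φ' y → ∀ h₁ ≤ H, ∀ h₂ ≤ H, ‖cr (fn (cmp Subtype.val ψ)) h₁ h₂ x - 1‖ < 1 / 2 := by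
    by_cases hu : S = Set.univ
    · have hs : Function.Surjective (Subtype.val : S → Circle) := fun z => ⟨⟨z, by rw [hu]; trivial⟩, rfl⟩
      have h3 : ∀ᶠ ψ in residual (Nat.Primes → S), ∀ i H : ℕ, ∃ y ∈ X i, H ≤ y ∧
          ∀ x, y ≤ x → x ≤ Φ' y → ∀ h₁ ≤ H, ∀ h₂ ≤ H, ‖cr (fn (cmp Subtype.val ψ)) h₁ h₂ x - 1‖ < 1 / 2 := by
        rw [eventually_countable_forall]
        intro i
        rw [eventually_countable_forall]
        intro H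
        exact res_c (Subtype.val : S → Circle) hc hs Φ' (X i) (hX i) H (1 / 2) (by norm_num)
      filter_upwards [h3] with ψ hψ _
      exact hψ
    · exact Filter.Eventually.of_forall fun ψ h => absurd h hu
  obtain ⟨G, hGsub, hG1, hG2⟩ := mem_residual.1 (e1.and (e2.and (e3.and e4)))
  refine ⟨G, hG1, hG2, fun ψ hψ => ?_⟩
  obtain ⟨hψ1, hψ2, hψ3, hψ4⟩ := hGsub hψ
  refine ⟨hψ1, ?_, fun hu => ⟨?_, ?_⟩⟩
  · obtain ⟨Y, hY1, hY2, hY3⟩ := good_set Φ' hΦ2 X _ hψ2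
    refine ⟨Y, hY1, hY2, fun i N => ?_⟩
    obtain ⟨y, hy, hN, hsub⟩ := hY3 i N
    exact ⟨y, hy, hN, (Set.Icc_subset_Icc_right (hΦ1 y)).trans hsub⟩
  · intro i m H ε hε
    obtain ⟨k, hk⟩ := exists_nat_one_div_lt hε
    obtain ⟨y, hy, hH, t, ht1, ht2, hx⟩ := hψ3 hu i m H k
    refine ⟨y, hy, hH, t, ht1, ht2, fun x hx1 hx2 => ?_⟩
    exact (hx x hx1 (hx2.trans (hΦ1 y))).le.trans (mul_le_mul_of_nonneg_right hk.le (Nat.cast_nonneg x))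
  · intro Z h₁ h₂ hZ
    obtain ⟨hZ1, hZ2⟩ := bad_set Φ' hΦ3 X _ (hψ4 hu) Z h₁ h₂ hZ
    refine ⟨hZ1, fun i N => ?_⟩
    obtain ⟨y, hy, hN, hd⟩ := hZ2 i N
    exact ⟨y, hy, hN, hd.mono_left (Set.Icc_subset_Icc_right (hΦ1 y))⟩

end Pool.Agent.H1.TF
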